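import Pool.Agent.Helper566_Q.Transfer

set_option autoImplicit false

namespace Pool.Agent.Helper566.QO

open Classical

universe u

theorem exists_E (D : Type u) [DistribLattice D] [Finite D] (K : Set D)
    (hK : ∀ k ∈ K, IsBot k ∨ IsTop k) :
    ∃ (E : Type u) (_ : DistribLattice E) (_ : BoundedOrder E) (_ : Finite E)
      (j : LatticeHom D E), Function.Injective j ∧ (∀ e, e = ⊥ ∨ e = ⊤ ∨ ∃ d, j d = e) ∧
        ∀ d, d ∈ K ↔ (j d = ⊥ ∨ j d = ⊤) := by
  by_cases hb : ∃ k ∈ K, IsBot k
  · obtain ⟨kb, hkb, hb⟩ := hb
    let ob : OrderBot D := { bot := kb, bot_le := hb }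
    have hbot : (⊥ : D) = kb := rfl
    by_cases ht : ∃ k ∈ K, IsTop k
    · obtain ⟨kt, hkt, ht⟩ := ht
      let ot : OrderTop D := { top := kt, le_top := ht }
      have htop : (⊤ : D) = kt := rfl
      let bo : BoundedOrder D := { ob, ot with }
      refine ⟨D, inferInstance, bo, inferInstance, LatticeHom.id D, fun _ _ h => h,
        fun e => Or.inr (Or.inr ⟨e, rfl⟩), ?_⟩
      intro d
      change d ∈ K ↔ d = kb ∨ d = kt
      constructor
      · intro h
        rcases hK d h with h' | h'
        · exact Or.inl (le_antisymm (h' kb) (hb d))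
        · exact Or.inr (le_antisymm (ht d) (h' kt))
      · rintro (rfl | rfl)
        · exact hkb
        · exact hkt
    · refine ⟨WithTop D, inferInstance, inferInstance, inferInstance,
        { toFun := fun d => (d : WithTop D), map_sup' := fun _ _ => rfl, map_inf' := fun _ _ => rfl },
        fun a b h => WithTop.coe_injective h, ?_, ?_⟩
      · intro e
        induction e using WithTop.recTopCoe with
        | top => exact Or.inr (Or.inl rfl)
        | coe a => exact Or.inr (Or.inr ⟨a, rfl⟩)
      · intro d
        change d ∈ K ↔ (d : WithTop D) = ⊥ ∨ (d : WithTop D) = ⊤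
        constructor
        · intro h
          rcases hK d h with h' | h'
          · left
            have : d = kb := le_antisymm (h' kb) (hb d)
            rw [this]; rfl
          · exact absurd ⟨d, h, h'⟩ ht
        · rintro (h | h)
          · have : d = kb := WithTop.coe_injective h
            rw [this]; exact hkb
          · exact absurd h (WithTop.coe_ne_top)
  · by_cases ht : ∃ k ∈ K, IsTop k
    · obtain ⟨kt, hkt, ht⟩ := ht
      let ot : OrderTop D := { top := kt, le_top := ht }
      refine ⟨WithBot D, inferInstance, inferInstance, inferInstance,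
        { toFun := fun d => (d : WithBot D), map_sup' := fun _ _ => rfl, map_inf' := fun _ _ => rfl },
        fun a b h => WithBot.coe_injective h, ?_, ?_⟩
      · intro e
        induction e using WithBot.recBotCoe with
        | bot => exact Or.inl rfl
        | coe a => exact Or.inr (Or.inr ⟨a, rfl⟩)
      · intro d
        change d ∈ K ↔ (d : WithBot D) = ⊥ ∨ (d : WithBot D) = ⊤
        constructor
        · intro h
          rcases hK d h with h' | h'
          · exact absurd ⟨d, h, h'⟩ hb
          · right
            have : d = kt := le_antisymm (ht d) (h' kt)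
            rw [this]; rfl
        · rintro (h | h)
          · exact absurd h (WithBot.coe_ne_bot)
          · have : d = kt := WithBot.coe_injective h
            rw [this]; exact hkt
    · refine ⟨WithBot (WithTop D), inferInstance, inferInstance, inferInstance,
        { toFun := fun d => ((d : WithTop D) : WithBot (WithTop D)), map_sup' := fun _ _ => rfl,
          map_inf' := fun _ _ => rfl },
        fun a b h => WithTop.coe_injective (WithBot.coe_injective h), ?_, ?_⟩
      · intro e
        induction e using WithBot.recBotCoe with
        | bot => exact Or.inl rfl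
        | coe a =>
          induction a using WithTop.recTopCoe with
          | top => exact Or.inr (Or.inl rfl)
          | coe a => exact Or.inr (Or.inr ⟨a, rfl⟩)
      · intro d
        change d ∈ K ↔ ((d : WithTop D) : WithBot (WithTop D)) = ⊥ ∨
          ((d : WithTop D) : WithBot (WithTop D)) = ⊤
        constructor
        · intro h
          rcases hK d h with h' | h'
          · exact absurd ⟨d, h, h'⟩ hb
          · exact absurd ⟨d, h, h'⟩ ht
        · rintro (h | h)
          · exact absurd h (WithBot.coe_ne_bot)
          · exact absurd (WithBot.coe_injective h) (WithTop.coe_ne_top)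

/-- In a union-closed family whose lattice has an element `m` with a unique cover, some point is
missed only by the members below `m`. -/
theorem uc_aux {α : Type*} [DecidableEq α] (A : Finset (Finset α))
    (hA : ∀ X ∈ A, ∀ Y ∈ A, X ∪ Y ∈ A) {L : Type*} [PartialOrder L] (e : {X // X ∈ A} ≃o L)
    (m m' : L) (hm : m < m') (hcov : ∀ x, m < x → m' ≤ x) :
    ∃ i, A.card = Nat.card L ∧ (A.filter fun X => i ∉ X).card ≤ Nat.card {x : L // x ≤ m} ∧
      A.card = (A.filter fun X => i ∈ X).card + (A.filter fun X => i ∉ X).card := by
  set M := e.symm m with hM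
  set M' := e.symm m' with hM'
  have hlt : M < M' := e.symm.lt_iff_lt.2 hm
  obtain ⟨i, hi', hi⟩ := Finset.exists_of_ssubset (show M.1 ⊂ M'.1 from hlt)
  refine ⟨i, ?_⟩
  have key : ∀ X : {X // X ∈ A}, i ∉ X.1 → e X ≤ m := by
    intro X hX
    let Y : {X // X ∈ A} := ⟨X.1 ∪ M.1, hA _ X.2 _ M.2⟩
    have h1 : M ≤ Y := (Finset.subset_union_right : M.1 ⊆ X.1 ∪ M.1)
    have h2 : X ≤ Y := (Finset.subset_union_left : X.1 ⊆ X.1 ∪ M.1)
    have h3 : Y = M := by
      by_contra hne
      have h4 : M < Y := lt_of_le_of_ne h1 (Ne.symm hne)
      have h5 : m < e Y := by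
        have := e.lt_iff_lt.2 h4
        rwa [hM, e.apply_symm_apply] at this
      have h6 : M' ≤ Y := by
        have := hcov _ h5
        rw [hM', e.symm_apply_le]
        exact this
      have h7 : i ∈ Y.1 := h6 hi'
      rcases Finset.mem_union.1 h7 with h | h
      · exact hX h
      · exact hi h
    have := e.monotone (h3 ▸ h2)
    rwa [hM, e.apply_symm_apply] at this
  have hfin : Finite L := Finite.of_equiv _ e.toEquiv
  have h1 : (A.filter fun X => i ∉ X).card ≤ Nat.card {x : L // x ≤ m} := by
    let f : {X // X ∈ A.filter fun X => i ∉ X} → {x : L // x ≤ m} := fun X =>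
      ⟨e ⟨X.1, (Finset.mem_filter.1 X.2).1⟩, key _ (Finset.mem_filter.1 X.2).2⟩
    have hf : Function.Injective f := by
      intro X Y h
      have h' := congrArg Subtype.val h
      have h'' := e.injective h'
      have h3 : (X.1 : Finset α) = Y.1 := congrArg (fun Z : {X // X ∈ A} => (Z.1 : Finset α)) h''
      exact Subtype.ext h3
    have := Nat.card_le_card_of_injective f hf
    rwa [Nat.card_eq_fintype_card, Fintype.card_coe] at this
  have h2 : A.card = Nat.card L := by
    rw [← Nat.card_congr e.toEquiv, Nat.card_eq_fintype_card, Fintype.card_coe]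
  exact ⟨h2, h1, (Finset.card_filter_add_card_filter_not _).symm⟩

end Pool.Agent.Helper566.QO
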