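import Pool.Agent.Helper566_Q.Dual
import Pool.Agent.Helper566_Q.Embed

set_option autoImplicit false

namespace Pool.Agent.Helper566.QO

open Classical

universe u

/-- The quasi-orders containing the order of `X`. -/
abbrev QOrd (X : Type*) [PartialOrder X] := {R : X → X → Prop // Above (leR X) R}

lemma card_qord (X : Type*) [PartialOrder X] (c : (X → X → Prop) → Prop) (q : QOrd X → Prop)
    (h : ∀ R : QOrd X, q R ↔ c R.1) :
    Nat.card {R : QOrd X // q R} = {R : X → X → Prop | Above (leR X) R ∧ c R}.ncard := by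
  rw [← Nat.card_coe_set_eq]
  refine Nat.card_congr
    { toFun := fun R => ⟨R.1.1, R.1.2, (h R.1).1 R.2⟩
      invFun := fun R => ⟨⟨R.1, R.2.1⟩, (h _).2 R.2.2⟩
      left_inv := fun R => rfl
      right_inv := fun R => rfl }

lemma card_qord' (X : Type*) [PartialOrder X] :
    Nat.card (QOrd X) = {R : X → X → Prop | Above (leR X) R}.ncard := by
  rw [← Nat.card_coe_set_eq]
  rfl

/-- the largest quasi-order for which the down-set of `p` is closed -/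
def bigQ {X : Type*} [PartialOrder X] (p : X) : QOrd X :=
  ⟨fun x y => y ≤ p → x ≤ p, fun _ h => h, fun _ _ _ h1 h2 h3 => h1 (h2 h3),
    fun _ _ h1 h2 => le_trans h1 h2⟩

lemma le_bigQ {X : Type*} [PartialOrder X] (p : X) (R : QOrd X) :
    R ≤ bigQ p ↔ ∀ x, R.1 x p → x ≤ p := by
  constructor
  · intro h x hx; exact h x p hx le_rfl
  · intro h x y hxy hyp
    exact h x (R.2.2.1 x y p hxy (R.2.2.2 y p hyp))

/-- the whole relation -/
def topQ (X : Type*) [PartialOrder X] : QOrd X :=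
  ⟨fun _ _ => True, fun _ => trivial, fun _ _ _ _ _ => trivial, fun _ _ _ => trivial⟩

lemma bigQ_lt {X : Type*} [PartialOrder X] {p w : X} (hw : ¬ w ≤ p) : bigQ p < topQ X := by
  refine lt_of_le_of_ne (fun _ _ _ => trivial) ?_
  intro h
  have h' : (bigQ p).1 w p := by rw [h]; trivial
  exact hw (h' le_rfl)

lemma bigQ_cov {X : Type*} [PartialOrder X] {p : X} (R : QOrd X) (hR : bigQ p < R) :
    topQ X ≤ R := by
  have h1 : ¬ R ≤ bigQ p := not_le_of_gt hR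
  rw [le_bigQ] at h1
  push Not at h1
  obtain ⟨x, hxp, hx⟩ := h1
  intro u v _
  have h2 : R.1 u x := hR.le u x (fun h => absurd h hx)
  have h3 : R.1 p v := hR.le p v (fun _ => le_rfl)
  exact R.2.2.1 _ _ _ h2 (R.2.2.1 _ _ _ hxp h3)

/-- the least quasi-order containing the pair `(a, b)` -/
def genQ {X : Type*} [PartialOrder X] (a b : X) : QOrd X :=
  ⟨dec2 a b (leR X), (dec2_above (a := a) (b := b) ⟨fun x => le_rfl,
    fun x y z h1 h2 => le_trans h1 h2, fun x y h => h⟩).1⟩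

lemma genQ_le {X : Type*} [PartialOrder X] (a b : X) (R : QOrd X) :
    genQ a b ≤ R ↔ R.1 a b := by
  constructor
  · intro h; exact h a b (Or.inr ⟨le_rfl, le_rfl⟩)
  · rintro h x y (h1 | h1)
    · exact R.2.2.2 _ _ h1
    · exact R.2.2.1 _ _ _ (R.2.2.2 _ _ h1.1) (R.2.2.1 _ _ _ h (R.2.2.2 _ _ h1.2))

/-- remove the pair `(a, b)` -/
def remQ {X : Type*} [PartialOrder X] (a b : X) (hab : ¬ a ≤ b) (hcov : ∀ y, b < y → ¬ y < a) :
    QOrd X :=
  ⟨fun x y => (genQ a b).1 x y ∧ ¬ (x = a ∧ y = b), by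
    refine ⟨?_, ?_, ?_⟩
    · intro x
      exact ⟨(genQ a b).2.1 x, fun h => hab (le_of_eq (h.1.symm.trans h.2))⟩
    · rintro x y z ⟨h1, h2⟩ ⟨h3, h4⟩
      refine ⟨(genQ a b).2.2.1 _ _ _ h1 h3, ?_⟩
      rintro ⟨rfl, rfl⟩
      have hyb : y ≠ z := fun h => h2 ⟨rfl, h⟩
      have hyx : y ≠ x := fun h => h4 ⟨h, rfl⟩
      rcases h1 with h1 | h1 <;> rcases h3 with h3 | h3
      · exact hab (le_trans h1 h3)
      · exact hyx (le_antisymm h3.1 h1)
      · exact hyb (le_antisymm h3 h1.2)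
      · exact hcov y (lt_of_le_of_ne h1.2 (Ne.symm hyb)) (lt_of_le_of_ne h3.1 hyx)
    · intro x y hxy
      refine ⟨Or.inl hxy, ?_⟩
      rintro ⟨rfl, rfl⟩
      exact hab hxy⟩

lemma remQ_lt {X : Type*} [PartialOrder X] (a b : X) (hab : ¬ a ≤ b)
    (hcov : ∀ y, b < y → ¬ y < a) : remQ a b hab hcov < genQ a b := by
  refine lt_of_le_of_ne (fun _ _ h => h.1) ?_
  intro h
  have h1 : (genQ a b).1 a b := Or.inr ⟨le_rfl, le_rfl⟩
  rw [← h] at h1
  exact h1.2 ⟨rfl, rfl⟩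

lemma remQ_cov {X : Type*} [PartialOrder X] (a b : X) (hab : ¬ a ≤ b)
    (hcov : ∀ y, b < y → ¬ y < a) (R : QOrd X) (hR : R < genQ a b) :
    R ≤ remQ a b hab hcov := by
  intro x y hxy
  refine ⟨hR.le x y hxy, ?_⟩
  rintro ⟨rfl, rfl⟩
  exact not_le_of_gt hR ((genQ_le _ _ R).2 hxy)

/-- the two results in terms of quasi-orders -/
theorem qord_up {X : Type*} [Finite X] [Nontrivial X] [PartialOrder X] :
    ∃ m m' : QOrd X, m < m' ∧ (∀ x, m < x → m' ≤ x) ∧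
      2 * Nat.card {x : QOrd X // x ≤ m} ≤ Nat.card (QOrd X) := by
  obtain ⟨p, ⟨w, hw⟩, h⟩ := exists_half (X := X)
  refine ⟨bigQ p, topQ X, bigQ_lt hw, bigQ_cov, ?_⟩
  rw [card_qord', card_qord X (fun R => ∀ x, R x p → x ≤ p) _ (le_bigQ p)]
  exact h

theorem qord_up_strict {X : Type*} [Finite X] [PartialOrder X]
    (hinc : ∃ x y z : X, ¬ x ≤ y ∧ ¬ y ≤ x ∧ z ≠ x ∧ z ≠ y) :
    ∃ m m' : QOrd X, m < m' ∧ (∀ x, m < x → m' ≤ x) ∧
      2 * Nat.card {x : QOrd X // x ≤ m} < Nat.card (QOrd X) := by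
  obtain ⟨p, ⟨w, hw⟩, h⟩ := exists_half_strict (X := X) hinc
  refine ⟨bigQ p, topQ X, bigQ_lt hw, bigQ_cov, ?_⟩
  rw [card_qord', card_qord X (fun R => ∀ x, R x p → x ≤ p) _ (le_bigQ p)]
  exact h

theorem qord_down {X : Type*} [Finite X] [Nontrivial X] [PartialOrder X] :
    ∃ m m' : (QOrd X)ᵒᵈ, m < m' ∧ (∀ x, m < x → m' ≤ x) ∧
      2 * Nat.card {x : (QOrd X)ᵒᵈ // x ≤ m} ≤ Nat.card (QOrd X)ᵒᵈ := by
  obtain ⟨a, b, hab, hcov, h⟩ := exists_pair (X := X)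
  refine ⟨OrderDual.toDual (genQ a b), OrderDual.toDual (remQ a b hab hcov),
    remQ_lt a b hab hcov, fun x hx => remQ_cov a b hab hcov (OrderDual.ofDual x) hx, ?_⟩
  have e1 : Nat.card (QOrd X)ᵒᵈ = Nat.card (QOrd X) := rfl
  have e2 : Nat.card {x : (QOrd X)ᵒᵈ // x ≤ OrderDual.toDual (genQ a b)} =
      Nat.card {x : QOrd X // genQ a b ≤ x} := rfl
  rw [e1, e2, card_qord', card_qord X (fun R => R a b) _ (genQ_le a b)]
  exact h

theorem qord_down_strict {X : Type*} [Finite X] [PartialOrder X]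
    (hinc : ∃ x y z : X, ¬ x ≤ y ∧ ¬ y ≤ x ∧ z ≠ x ∧ z ≠ y) :
    ∃ m m' : (QOrd X)ᵒᵈ, m < m' ∧ (∀ x, m < x → m' ≤ x) ∧
      2 * Nat.card {x : (QOrd X)ᵒᵈ // x ≤ m} < Nat.card (QOrd X)ᵒᵈ := by
  obtain ⟨a, b, hab, hcov, h⟩ := exists_pair_strict (X := X) hinc
  refine ⟨OrderDual.toDual (genQ a b), OrderDual.toDual (remQ a b hab hcov),
    remQ_lt a b hab hcov, fun x hx => remQ_cov a b hab hcov (OrderDual.ofDual x) hx, ?_⟩
  have e1 : Nat.card (QOrd X)ᵒᵈ = Nat.card (QOrd X) := rfl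
  have e2 : Nat.card {x : (QOrd X)ᵒᵈ // x ≤ OrderDual.toDual (genQ a b)} =
      Nat.card {x : QOrd X // genQ a b ≤ x} := rfl
  rw [e1, e2, card_qord', card_qord X (fun R => R a b) _ (genQ_le a b)]
  exact h

end Pool.Agent.Helper566.QO
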