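import Pool.Agent.Helper566_Q.Count

set_option autoImplicit false

namespace Pool.Agent.Helper566.QO

open Classical

variable {D : Type*} [DistribLattice D] [BoundedOrder D] [Finite D]

/-- The join-irreducible elements. -/
abbrev Irr (D : Type*) [Lattice D] := {a : D // SupIrred a}

/-- The 0-1-sublattices. -/
abbrev Sub01 (D : Type*) [Lattice D] [BoundedOrder D] := {S : Sublattice D // ⊥ ∈ S ∧ ⊤ ∈ S}

/-- the order on join-irreducibles as a relation -/
abbrev le' (D : Type*) [Lattice D] : Irr D → Irr D → Prop := fun x y => x ≤ y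

def relOf (S : Set D) : Irr D → Irr D → Prop := fun x y => ∀ s ∈ S, (y : D) ≤ s → (x : D) ≤ s

lemma le_of_irr {a s : D} (h : ∀ x : Irr D, (x : D) ≤ a → (x : D) ≤ s) : a ≤ s := by
  obtain ⟨t, ht, hirr⟩ := exists_supIrred_decomposition a
  rw [← ht]
  apply Finset.sup_le
  intro b hb
  apply h ⟨b, hirr hb⟩
  rw [← ht]
  exact Finset.le_sup (f := id) hb

lemma relOf_above (S : Set D) : Above (le' D) (relOf S) := by
  refine ⟨fun x s _ h => h, fun x y z h1 h2 s hs h => h1 s hs (h2 s hs h), ?_⟩
  intro x y h s _ h'
  exact le_trans h h'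

def subOf (R : Irr D → Irr D → Prop) : Sublattice D where
  carrier := {s | ∀ x y, R x y → (y : D) ≤ s → (x : D) ≤ s}
  supClosed' := by
    intro a ha b hb x y hxy hy
    have hprime : SupPrime (y : D) := supPrime_iff_supIrred.2 y.2
    rcases hprime.2 hy with h | h
    · exact le_trans (ha x y hxy h) le_sup_left
    · exact le_trans (hb x y hxy h) le_sup_right
  infClosed' := by
    intro a ha b hb x y hxy hy
    exact le_inf (ha x y hxy (le_trans hy inf_le_left)) (hb x y hxy (le_trans hy inf_le_right))

lemma mem_subOf (R : Irr D → Irr D → Prop) (s : D) :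
    s ∈ subOf R ↔ ∀ x y, R x y → (y : D) ≤ s → (x : D) ≤ s := Iff.rfl

lemma subOf_bot (R : Irr D → Irr D → Prop) : (⊥ : D) ∈ subOf R := by
  intro x y _ hy
  exact absurd (le_bot_iff.1 hy) (by
    have := y.2.1
    intro h
    rw [h] at this
    exact this isMin_bot)

lemma subOf_top (R : Irr D → Irr D → Prop) : (⊤ : D) ∈ subOf R := by
  intro x y _ _
  exact le_top

lemma subOf_relOf (S : Sub01 D) : subOf (relOf (S.1 : Set D)) = S.1 := by
  have := Fintype.ofFinite D
  apply SetLike.ext
  intro s
  rw [mem_subOf]
  constructor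
  · intro h
    -- the least element of `S` above `y`
    let m : D → D := fun y => (Finset.univ.filter (fun s' : D => s' ∈ S.1 ∧ y ≤ s')).inf id
    have hm : ∀ y, m y ∈ S.1 := by
      intro y
      apply Finset.inf_mem (S.1 : Set D) S.2.2
      · intro a ha b hb; exact S.1.infClosed' ha hb
      · intro a ha; exact (Finset.mem_filter.1 ha).2.1
    have hym : ∀ y, y ≤ m y := by
      intro y
      apply Finset.le_inf
      intro a ha; exact (Finset.mem_filter.1 ha).2.2
    have hms : ∀ y : Irr D, (y : D) ≤ s → m y ≤ s := by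
      intro y hy
      apply le_of_irr
      intro x hx
      apply h x y _ hy
      intro s' hs' hys'
      refine le_trans hx ?_
      exact Finset.inf_le (f := id) (Finset.mem_filter.2 ⟨Finset.mem_univ _, hs', hys'⟩)
    have hs : s = (Finset.univ.filter (fun y : D => SupIrred y ∧ y ≤ s)).sup m := by
      apply le_antisymm
      · apply le_of_irr
        intro x hx
        refine le_trans (hym x) ?_
        exact Finset.le_sup (f := m) (Finset.mem_filter.2 ⟨Finset.mem_univ _, x.2, hx⟩)
      · apply Finset.sup_le
        intro y hy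
        have hy' := (Finset.mem_filter.1 hy).2
        exact hms ⟨y, hy'.1⟩ hy'.2
    rw [hs]
    apply Finset.sup_mem (S.1 : Set D) S.2.1
    · intro a ha b hb; exact S.1.supClosed' ha hb
    · intro a _; exact hm a
  · intro hs x y hxy hy
    exact hxy s hs hy

lemma relOf_subOf (R : Irr D → Irr D → Prop) (hR : Above (le' D) R) :
    relOf (subOf R : Set D) = R := by
  have := Fintype.ofFinite D
  funext x y
  apply propext
  constructor
  · intro h
    by_contra hn
    let s : D := (Finset.univ.filter (fun z : D => ∃ hz : SupIrred z, R ⟨z, hz⟩ y)).sup id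
    have hle : ∀ b : Irr D, (b : D) ≤ s ↔ R b y := by
      intro b
      constructor
      · intro hb
        have hprime : SupPrime (b : D) := supPrime_iff_supIrred.2 b.2
        obtain ⟨z, hz, hbz⟩ := (SupPrime.le_finset_sup hprime).1 hb
        obtain ⟨hzi, hzR⟩ := (Finset.mem_filter.1 hz).2
        exact hR.2.1 _ _ _ (hR.2.2 b ⟨z, hzi⟩ hbz) hzR
      · intro hb
        exact Finset.le_sup (f := id) (Finset.mem_filter.2 ⟨Finset.mem_univ _, b.2, hb⟩)
    have hs : s ∈ subOf R := by
      intro a b hab hb
      rw [hle] at hb ⊢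
      exact hR.2.1 _ _ _ hab hb
    have := h s hs ((hle y).2 (hR.1 y))
    exact hn ((hle x).1 this)
  · intro h s hs hy
    exact hs x y h hy

/-- 0-1-sublattices correspond to the quasi-orders containing the order of the join-irreducibles,
inclusion being reversed. -/
noncomputable def iso : (Sub01 D)ᵒᵈ ≃o {R : Irr D → Irr D → Prop // Above (le' D) R} where
  toFun S := ⟨relOf ((OrderDual.ofDual S).1 : Set D), relOf_above _⟩
  invFun R := OrderDual.toDual ⟨subOf R.1, subOf_bot _, subOf_top _⟩
  left_inv S := by
    exact congrArg OrderDual.toDual (Subtype.ext (subOf_relOf (OrderDual.ofDual S)))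
  right_inv R := by
    apply Subtype.ext
    exact relOf_subOf R.1 R.2
  map_rel_iff' := by
    intro S T
    constructor
    · intro h
      change (OrderDual.ofDual T).1 ≤ (OrderDual.ofDual S).1
      rw [← subOf_relOf (OrderDual.ofDual S), ← subOf_relOf (OrderDual.ofDual T)]
      intro s hs x y hxy hy
      exact hs x y (h x y hxy) hy
    · intro h x y hxy s hs hy
      exact hxy s (h hs) hy

/-- membership of a join-irreducible -/
lemma irr_mem (S : Sub01 D) (p : Irr D) :
    (p : D) ∈ S.1 ↔ ∀ x, relOf (S.1 : Set D) x p → x ≤ p := by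
  constructor
  · intro h x hx
    exact hx p h le_rfl
  · intro h
    rw [← subOf_relOf S]
    intro x y hxy hy
    exact h x ((relOf_above (S.1 : Set D)).2.1 x y p hxy ((relOf_above (S.1 : Set D)).2.2 y p hy))

theorem half01 (hD : ∃ d : D, d ≠ ⊥ ∧ d ≠ ⊤) :
    ∃ d : D, d ≠ ⊥ ∧ d ≠ ⊤ ∧ 2 * Nat.card {S : Sub01 D // d ∈ S.1} ≤ Nat.card (Sub01 D) := by
  have hfin : Finite (Irr D) := inferInstance
  have hnt : Nontrivial (Irr D) := by
    obtain ⟨d, hd0, hd1⟩ := hD
    -- a join-irreducible below `d`
    have h1 : ∃ x : Irr D, (x : D) ≤ d := by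
      by_contra hn
      push Not at hn
      apply hd0
      rw [← le_bot_iff]
      apply le_of_irr
      intro x hx
      exact absurd hx (hn x)
    have h2 : ∃ y : Irr D, ¬ (y : D) ≤ d := by
      by_contra hn
      push Not at hn
      apply hd1
      rw [← top_le_iff]
      apply le_of_irr
      intro x _
      exact hn x
    obtain ⟨x, hx⟩ := h1
    obtain ⟨y, hy⟩ := h2
    exact ⟨⟨x, y, by rintro rfl; exact hy hx⟩⟩
  obtain ⟨p, ⟨w, hw⟩, hp⟩ := exists_half (X := Irr D)
  refine ⟨(p : D), ?_, ?_, ?_⟩
  · intro h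
    have := p.2.1
    rw [h] at this
    exact this isMin_bot
  · intro h
    apply hw
    change (w : D) ≤ (p : D)
    rw [h]
    exact le_top
  · have e1 : Nat.card (Sub01 D) = {R : Irr D → Irr D → Prop | Above (le' D) R}.ncard := by
      rw [← Nat.card_coe_set_eq]
      exact Nat.card_congr (OrderDual.toDual.trans (iso (D := D)).toEquiv)
    have e2 : Nat.card {S : Sub01 D // (p : D) ∈ S.1} =
        {R : Irr D → Irr D → Prop | Above (le' D) R ∧ ∀ x, R x p → x ≤ p}.ncard := by
      rw [← Nat.card_coe_set_eq]
      refine Nat.card_congr ?_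
      refine
        { toFun := fun S => ⟨relOf (S.1.1 : Set D), relOf_above _, (irr_mem S.1 p).1 S.2⟩
          invFun := fun R => ⟨⟨subOf R.1, subOf_bot _, subOf_top _⟩, ?_⟩
          left_inv := ?_
          right_inv := ?_ }
      · rw [irr_mem]
        have : relOf (subOf R.1 : Set D) = R.1 := relOf_subOf R.1 R.2.1
        intro x hx
        change relOf (subOf R.1 : Set D) x p at hx
        rw [this] at hx
        exact R.2.2 x hx
      · intro S
        apply Subtype.ext
        apply Subtype.ext
        exact subOf_relOf S.1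
      · intro R
        apply Subtype.ext
        exact relOf_subOf R.1 R.2.1
    rw [e1, e2]
    exact hp

end Pool.Agent.Helper566.QO
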