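import Pool.Agent.Helper566_Q.Final

set_option autoImplicit false

namespace Pool.Agent.Helper566.QO

open Classical

universe u

lemma half_set {Y : Type*} [Finite Y] (y : Y) :
    Nat.card (Set Y) = 2 * {Z : Set Y | y ∉ Z}.ncard := by
  have h1 : (Set.univ : Set (Set Y)) = {Z : Set Y | y ∉ Z} ∪ (fun Z => insert y Z) ''
      {Z : Set Y | y ∉ Z} := by
    ext Z
    simp only [Set.mem_univ, true_iff]
    by_cases h : y ∈ Z
    · right
      refine ⟨Z \ {y}, fun h' => h'.2 rfl, ?_⟩
      exact Set.insert_sdiff_self_of_mem h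
    · exact Or.inl h
  have h2 : Disjoint {Z : Set Y | y ∉ Z} ((fun Z => insert y Z) '' {Z : Set Y | y ∉ Z}) := by
    rw [Set.disjoint_left]
    rintro _ h ⟨Z, -, rfl⟩
    exact h (Set.mem_insert y Z)
  have h3 : ((fun Z => insert y Z) '' {Z : Set Y | y ∉ Z}).ncard = {Z : Set Y | y ∉ Z}.ncard := by
    apply Set.InjOn.ncard_image
    intro Z hZ W hW h
    have h' : insert y Z = insert y W := h
    have hZ' : insert y Z \ {y} = Z := by
      rw [Set.insert_sdiff_self_of_notMem hZ]
    have hW' : insert y W \ {y} = W := by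
      rw [Set.insert_sdiff_self_of_notMem hW]
    rw [← hZ', ← hW', h']
  rw [← Set.ncard_univ, h1, Set.ncard_union_eq h2 (Set.toFinite _) (Set.toFinite _), h3]
  omega

theorem boolean_strict {α : Type*} [DecidableEq α] (A : Finset (Finset α))
    (hA : ∀ X ∈ A, ∀ Y ∈ A, X ∪ Y ∈ A) {Y : Type*} [Finite Y] (e : {X // X ∈ A} ≃o Set Y)
    (hsep : ∀ i j, i ∈ A.sup id → j ∈ A.sup id → i ≠ j → ∃ X ∈ A, ¬ (i ∈ X ↔ j ∈ X))
    (hne : A ≠ (A.sup id).powerset) :
    ∃ i, A.card < 2 * (A.filter fun X => i ∈ X).card := by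
  by_contra hcon
  push Not at hcon
  have hcard : A.card = Nat.card (Set Y) := by
    rw [← Nat.card_congr e.toEquiv, Nat.card_eq_fintype_card, Fintype.card_coe]
  -- for each point, the members avoiding it are those below a coatom
  have key : ∀ i ∈ A.sup id, ∃ y : Y, ∀ X : {X // X ∈ A}, i ∉ X.1 ↔ y ∉ e X := by
    intro i hi
    obtain ⟨T, hT, hiT⟩ := Finset.mem_sup.1 hi
    have hsplit := Finset.card_filter_add_card_filter_not (s := A) (fun X => i ∈ X)
    have h1 : A.card ≤ 2 * (A.filter fun X => i ∉ X).card := by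
      have := hcon i
      omega
    have hApos : 0 < A.card := Finset.card_pos.2 ⟨T, hT⟩
    have hne' : (A.filter fun X => i ∉ X).Nonempty := by
      rw [← Finset.card_pos]; omega
    let M : Finset α := (A.filter fun X => i ∉ X).sup id
    have hMi : i ∉ M := by
      intro h
      obtain ⟨X, hX, hiX⟩ := Finset.mem_sup.1 h
      exact (Finset.mem_filter.1 hX).2 hiX
    have hMA : M ∈ A := by
      have : ∀ F : Finset (Finset α), F ⊆ A → F.Nonempty → F.sup id ∈ A := by
        intro F
        induction F using Finset.induction_on with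
        | empty => intro _ h; exact absurd h (by simp)
        | insert a F _ ih =>
          intro hF _
          rw [Finset.sup_insert]
          by_cases hFe : F.Nonempty
          · exact hA _ (hF (Finset.mem_insert_self a F)) _
              (ih (fun x hx => hF (Finset.mem_insert_of_mem hx)) hFe)
          · rw [Finset.not_nonempty_iff_eq_empty] at hFe
            subst hFe
            simpa using hF (Finset.mem_insert_self a ∅)
      exact this _ (Finset.filter_subset _ _) hne'
    have hM : ∀ X : {X // X ∈ A}, i ∉ X.1 ↔ X ≤ ⟨M, hMA⟩ := by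
      intro X
      constructor
      · intro h
        exact Finset.le_sup (f := id) (Finset.mem_filter.2 ⟨X.2, h⟩)
      · intro h h'
        exact hMi (h h')
    -- a point outside `e M`
    have hy : ∃ y, y ∉ e ⟨M, hMA⟩ := by
      by_contra hn
      push Not at hn
      have h2 : (⟨T, hT⟩ : {X // X ∈ A}) ≤ ⟨M, hMA⟩ := by
        rw [← e.le_iff_le]
        intro z _; exact hn z
      exact (hM ⟨T, hT⟩).2 h2 hiT
    obtain ⟨y, hy⟩ := hy
    refine ⟨y, ?_⟩
    -- counting
    have h2 : (A.filter fun X => i ∉ X).card ≤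
        {Z : Set Y | Z ≤ e ⟨M, hMA⟩}.ncard := by
      let f : {X // X ∈ A.filter fun X => i ∉ X} → {Z : Set Y | Z ≤ e ⟨M, hMA⟩} := fun X =>
        ⟨e ⟨X.1, (Finset.mem_filter.1 X.2).1⟩, by
          change e _ ≤ e _
          rw [e.le_iff_le, ← hM]
          exact (Finset.mem_filter.1 X.2).2⟩
      have hf : Function.Injective f := by
        intro X Z h
        have h' := congrArg Subtype.val h
        have h'' := e.injective h'
        have h3 : (X.1 : Finset α) = Z.1 := congrArg (fun W : {X // X ∈ A} => (W.1 : Finset α)) h''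
        exact Subtype.ext h3
      have := Nat.card_le_card_of_injective f hf
      rw [Nat.card_eq_fintype_card, Fintype.card_coe, Nat.card_coe_set_eq] at this
      exact this
    have h3 : {Z : Set Y | Z ≤ e ⟨M, hMA⟩} = {Z : Set Y | y ∉ Z} := by
      apply Set.eq_of_subset_of_ncard_le
      · intro Z hZ h
        exact hy (hZ h)
      · have := half_set y
        omega
      · exact Set.toFinite _
    intro X
    rw [hM X, ← e.le_iff_le]
    exact Set.ext_iff.1 h3 (e X)
  have := Fintype.ofFinite Y
  have h1 : (A.sup id).card ≤ Fintype.card Y := by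
    by_cases hYe : Nonempty Y
    · choose! y hy using key
      -- at most `Nat.card Y` points
      have hinj : Set.InjOn y (A.sup id : Finset α) := by
        intro i hi j hj hij
        by_contra hne
        obtain ⟨X, hX, hsepX⟩ := hsep i j hi hj hne
        apply hsepX
        have h1 := hy i hi ⟨X, hX⟩
        have h2 := hy j hj ⟨X, hX⟩
        rw [hij] at h1
        rw [← not_iff_not]
        exact h1.trans h2.symm
      rw [← Finset.card_image_of_injOn hinj]
      exact Finset.card_le_univ _
    · have h0 : A.sup id = ∅ := by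
        rw [Finset.eq_empty_iff_forall_notMem]
        intro i hi
        obtain ⟨y, -⟩ := key i hi
        exact hYe ⟨y⟩
      rw [h0]
      simp
  have h2 : A ⊆ (A.sup id).powerset := by
    intro X hX
    rw [Finset.mem_powerset]
    exact Finset.le_sup (f := id) hX
  apply hne
  apply Finset.eq_of_subset_of_card_le h2
  rw [Finset.card_powerset, hcard, Nat.card_eq_fintype_card, Fintype.card_set]
  exact Nat.pow_le_pow_right (by norm_num) h1

section

variable {D : Type u} [Lattice D] (K : Set D)

/-- if every set containing `K` is a sublattice, the lattice is Boolean -/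
def boolIso (h : ∀ S : Set D, K ⊆ S → SupClosed S ∧ InfClosed S) :
    SubK K ≃o Set {d : D // d ∉ K} where
  toFun S := {d | d.1 ∈ S.1}
  invFun Z := ⟨⟨{d | d ∈ K ∨ ∃ h : d ∉ K, (⟨d, h⟩ : {d : D // d ∉ K}) ∈ Z},
    (h _ (fun _ hk => Or.inl hk)).1, (h _ (fun _ hk => Or.inl hk)).2⟩, fun _ hk => Or.inl hk⟩
  left_inv S := by
    apply Subtype.ext
    apply SetLike.ext
    intro d
    constructor
    · rintro (h | ⟨_, h⟩)
      · exact S.2 d h
      · exact h
    · intro h'
      by_cases hd : d ∈ K
      · exact Or.inl hd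
      · exact Or.inr ⟨hd, h'⟩
  right_inv Z := by
    ext d
    constructor
    · rintro (h | ⟨_, h⟩)
      · exact absurd h d.2
      · exact h
    · intro h'
      exact Or.inr ⟨d.2, h'⟩
  map_rel_iff' := by
    intro S T
    constructor
    · intro h' d hd
      by_cases hdK : d ∈ K
      · exact T.2 d hdK
      · exact h' (show (⟨d, hdK⟩ : {d : D // d ∉ K}) ∈ {d : {d : D // d ∉ K} | d.1 ∈ S.1} from hd)
    · intro h' d hd
      exact h' hd

end

/-- The conjecture with Poonen's strict form. -/
theorem final' {D : Type u} [DistribLattice D] [Finite D] (K : Set D)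
    (hK : ∀ k ∈ K, IsBot k ∨ IsTop k) (hne : ∃ d, d ∉ K)
    {α : Type*} [DecidableEq α] (A : Finset (Finset α)) (hA : ∀ X ∈ A, ∀ Y ∈ A, X ∪ Y ∈ A)
    (h : Nonempty ({X // X ∈ A} ≃o SubK K) ∨ Nonempty ({X // X ∈ A} ≃o (SubK K)ᵒᵈ)) :
    (∃ i, A.card ≤ 2 * (A.filter fun X => i ∈ X).card) ∧
      ((∃ S : Set D, K ⊆ S ∧ ¬ (SupClosed S ∧ InfClosed S)) →
        ∃ i, A.card < 2 * (A.filter fun X => i ∈ X).card) ∧
      ((∀ i j, i ∈ A.sup id → j ∈ A.sup id → i ≠ j → ∃ X ∈ A, ¬ (i ∈ X ↔ j ∈ X)) →
        A ≠ (A.sup id).powerset → ∃ i, A.card < 2 * (A.filter fun X => i ∈ X).card) := by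
  obtain ⟨h1, h2⟩ := final K hK hne A hA h
  refine ⟨h1, h2, ?_⟩
  intro hsep hpow
  by_cases hS : ∃ S : Set D, K ⊆ S ∧ ¬ (SupClosed S ∧ InfClosed S)
  · exact h2 hS
  · push Not at hS
    have hS' : ∀ S : Set D, K ⊆ S → SupClosed S ∧ InfClosed S := hS
    rcases h with ⟨⟨e⟩⟩ | ⟨⟨e⟩⟩
    · exact boolean_strict A hA (e.trans (boolIso K hS')) hsep hpow
    · let c : (Set {d : D // d ∉ K})ᵒᵈ ≃o Set {d : D // d ∉ K} := (OrderIso.compl _).symm
      exact boolean_strict A hA (e.trans ((boolIso K hS').dual.trans c)) hsep hpow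

end Pool.Agent.Helper566.QO
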