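import Mathlib

set_option autoImplicit false

/-!
# Quasi-orders containing a partial order: the injection

For a partial order `P` on a finite set, and `p` maximal (or maximal below the top of `P`), at most
half of the quasi-orders `R ⊇ P` satisfy `{x | R x p} = {x | P x p}`.
-/

namespace Pool.Agent.Helper566.QO

open Classical

variable {X : Type*}

/-- `R` is a quasi-order containing `P`. -/
def Above (P R : X → X → Prop) : Prop :=
  (∀ x, R x x) ∧ (∀ x y z, R x y → R y z → R x z) ∧ ∀ x y, P x y → R x y

def core (P : X → X → Prop) (p : X) (R : X → X → Prop) (x y : X) : Prop :=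
  R x y ∧ ¬ (¬ P x p ∧ P y p)

def UB (P : X → X → Prop) (p : X) (R : X → X → Prop) (y : X) : Prop :=
  ∀ x, P x p → x ≠ p → core P p R x y

def Cl (P : X → X → Prop) (p : X) (R : X → X → Prop) : Prop :=
  ∀ x y, ¬ P x p → P y p → y ≠ p → ¬ R x y

def c1 (P : X → X → Prop) (p w : X) (R : X → X → Prop) : Prop :=
  Cl P p R ∧ ¬ (R p w ∧ R w p) ∧ (∀ y, y ≠ p → R p y → (P p w ∧ R w y)) ∧
    (∀ x, ¬ P x p → ¬ R x p → UB P p R x)

def c2 (P : X → X → Prop) (p w : X) (R : X → X → Prop) : Prop :=
  Cl P p R ∧ (∀ x, ¬ P x p → UB P p R x) ∧ R p w ∧ R w p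

def up (P : X → X → Prop) (p w : X) (R : X → X → Prop) (y : X) : Prop :=
  if c1 P p w R then ¬ R y p else if c2 P p w R then ¬ P y p else UB P p R y

def dec (P : X → X → Prop) (p w : X) (R : X → X → Prop) : X → X → Prop := fun x y =>
  if x = p then (y = p ∨ up P p w R y) else if y = p then P x p else core P p R x y

def ext (p : X) (Q : X → X → Prop) (D U : X → Prop) : X → X → Prop := fun x y =>
  if x = p then (y = p ∨ U y) else if y = p then D x else Q x y

lemma ext_pp (p : X) (Q : X → X → Prop) (D U : X → Prop) : ext p Q D U p p := by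
  simp [ext]

lemma ext_p {p : X} (Q : X → X → Prop) (D U : X → Prop) {y : X} (hy : y ≠ p) :
    ext p Q D U p y ↔ U y := by
  simp [ext, hy]

lemma ext_x {p : X} (Q : X → X → Prop) (D U : X → Prop) {x : X} (hx : x ≠ p) :
    ext p Q D U x p ↔ D x := by
  simp [ext, hx]

lemma ext_xy {p : X} (Q : X → X → Prop) (D U : X → Prop) {x y : X} (hx : x ≠ p) (hy : y ≠ p) :
    ext p Q D U x y ↔ Q x y := by
  simp [ext, hx, hy]

lemma ext_above {P : X → X → Prop} {p : X} {Q : X → X → Prop} {D U : X → Prop}
    (hQr : ∀ x, x ≠ p → Q x x)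
    (hQt : ∀ x y z, x ≠ p → y ≠ p → z ≠ p → Q x y → Q y z → Q x z)
    (hD : ∀ x y, x ≠ p → y ≠ p → Q x y → D y → D x)
    (hU : ∀ x y, x ≠ p → y ≠ p → U x → Q x y → U y)
    (hDU : ∀ x y, x ≠ p → y ≠ p → D x → U y → Q x y)
    (hPQ : ∀ x y, x ≠ p → y ≠ p → P x y → Q x y)
    (hPD : ∀ x, x ≠ p → P x p → D x)
    (hPU : ∀ y, y ≠ p → P p y → U y) : Above P (ext p Q D U) := by
  refine ⟨?_, ?_, ?_⟩
  · intro x
    by_cases hx : x = p
    · subst hx; exact ext_pp _ _ _ _
    · rw [ext_xy Q D U hx hx]; exact hQr x hx
  · intro x y z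
    by_cases hx : x = p <;> by_cases hy : y = p <;> by_cases hz : z = p
    · subst hx; subst hz; intro _ _; exact ext_pp _ _ _ _
    · subst hx; subst hy; intro _ h; exact h
    · subst hx; subst hz; intro _ _; exact ext_pp _ _ _ _
    · subst hx; rw [ext_p Q D U hy, ext_p Q D U hz, ext_xy Q D U hy hz]; exact hU y z hy hz
    · subst hy; subst hz; intro h _; exact h
    · subst hy; rw [ext_x Q D U hx, ext_p Q D U hz, ext_xy Q D U hx hz]; exact hDU x z hx hz
    · subst hz; rw [ext_xy Q D U hx hy, ext_x Q D U hx, ext_x Q D U hy]; exact hD x y hx hy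
    · rw [ext_xy Q D U hx hy, ext_xy Q D U hx hz, ext_xy Q D U hy hz]; exact hQt x y z hx hy hz
  · intro x y h
    by_cases hx : x = p <;> by_cases hy : y = p
    · subst hx; subst hy; exact ext_pp _ _ _ _
    · subst hx; rw [ext_p Q D U hy]; exact hPU y hy h
    · subst hy; rw [ext_x Q D U hx]; exact hPD x hx h
    · rw [ext_xy Q D U hx hy]; exact hPQ x y hx hy h

lemma dec_eq {P : X → X → Prop} {p w : X} {R R' : X → X → Prop} (hR : Above P R)
    (hRp : ∀ x, R x p → P x p)
    (hcore : ∀ x y, x ≠ p → y ≠ p → (core P p R' x y ↔ R x y))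
    (hu : ∀ y, y ≠ p → (up P p w R' y ↔ R p y)) : dec P p w R' = R := by
  funext x y
  apply propext
  unfold dec
  by_cases hx : x = p
  · subst hx
    rw [if_pos rfl]
    by_cases hy : y = x
    · subst hy; exact ⟨fun _ => hR.1 _, fun _ => Or.inl rfl⟩
    · constructor
      · rintro (h | h)
        · exact absurd h hy
        · exact (hu y hy).1 h
      · intro h; exact Or.inr ((hu y hy).2 h)
  · rw [if_neg hx]
    by_cases hy : y = p
    · subst hy
      rw [if_pos rfl]
      exact ⟨fun h => hR.2.2 _ _ h, fun h => hRp _ h⟩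
    · rw [if_neg hy]
      exact hcore x y hx hy

/-- if `R'` agrees with `R` off `p`, the core is right. -/
lemma core_of {P : X → X → Prop} {p : X} {R : X → X → Prop} {D U : X → Prop} (hR : Above P R)
    (hRp : ∀ x, R x p → P x p) (x y : X) (hx : x ≠ p) (hy : y ≠ p) :
    core P p (ext p R D U) x y ↔ R x y := by
  unfold core
  rw [ext_xy R D U hx hy]
  constructor
  · exact fun h => h.1
  · intro h
    exact ⟨h, fun h' => h'.1 (hRp x (hR.2.1 x y p h (hR.2.2 y p h'.2)))⟩

lemma cl_of {P : X → X → Prop} {p : X} {R : X → X → Prop} {D U : X → Prop} (hP : P p p)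
    (hR : Above P R)
    (hRp : ∀ x, R x p → P x p) : Cl P p (ext p R D U) := by
  intro x y hx hy hyp h
  have hxp : x ≠ p := by rintro rfl; exact hx hP
  rw [ext_xy R D U hxp hyp] at h
  exact hx (hRp x (hR.2.1 x y p h (hR.2.2 y p hy)))

lemma ub_of {P : X → X → Prop} {p : X} {R : X → X → Prop} {D U : X → Prop} (hR : Above P R)
    (hRp : ∀ x, R x p → P x p) (y : X) (hy : y ≠ p) :
    UB P p (ext p R D U) y ↔ ∀ x, P x p → x ≠ p → R x y := by
  unfold UB
  constructor
  · intro h x hx hxp; exact (core_of hR hRp x y hxp hy).1 (h x hx hxp)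
  · intro h x hx hxp; exact (core_of hR hRp x y hxp hy).2 (h x hx hxp)

theorem main (P : X → X → Prop) (hPr : ∀ x, P x x)
    (p w : X) (hw : ¬ P w p) (hp : ∀ y, P p y → y = p ∨ (P p w ∧ P w y))
    (hw2 : P p w → ∀ x, P x w ∨ P w x)
    (R : X → X → Prop) (hR : Above P R) (hRp : ∀ x, R x p → P x p) :
    ∃ R', Above P R' ∧ (∃ x, R' x p ∧ ¬ P x p) ∧ dec P p w R' = R := by
  have hRr := hR.1
  have hRt := hR.2.1
  have hRP := hR.2.2
  have hPp := hPr p
  have hwp : w ≠ p := by rintro rfl; exact hw hPp
  have hne : ∀ {x : X}, ¬ P x p → x ≠ p := by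
    intro x hx h; subst h; exact hx hPp
  by_cases hcase : ∀ x, R p x → x = p ∨ ¬ P x p
  · by_cases hUW : ∀ x, ¬ P x p → R p x
    · -- case 2
      refine ⟨ext p R (fun x => R x w) (fun y => R w y), ?_, ?_, ?_⟩
      · apply ext_above
        · intro x _; exact hRr x
        · intro x y z _ _ _; exact hRt x y z
        · intro x y _ _ h1 h2; exact hRt _ _ _ h1 h2
        · intro x y _ _ h1 h2; exact hRt _ _ _ h1 h2
        · intro x y _ _ h1 h2; exact hRt _ _ _ h1 h2
        · intro x y _ _ h; exact hRP _ _ h
        · intro x _ h; exact hRt _ _ _ (hRP _ _ h) (hUW w hw)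
        · intro y hy h
          rcases hp y h with h | h
          · exact absurd h hy
          · exact hRP _ _ h.2
      · exact ⟨w, by rw [ext_x _ _ _ hwp]; exact hRr w, hw⟩
      · apply dec_eq hR hRp (core_of hR hRp)
        intro y hy
        have h1 : ext p R (fun x => R x w) (fun y => R w y) p w := by
          rw [ext_p _ _ _ hwp]; exact hRr w
        have h2 : ext p R (fun x => R x w) (fun y => R w y) w p := by
          rw [ext_x _ _ _ hwp]; exact hRr w
        have hn1 : ¬ c1 P p w (ext p R (fun x => R x w) (fun y => R w y)) := by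
          intro h; exact h.2.1 ⟨h1, h2⟩
        have hc2 : c2 P p w (ext p R (fun x => R x w) (fun y => R w y)) := by
          refine ⟨cl_of hPp hR hRp, ?_, h1, h2⟩
          intro x hx
          rw [ub_of hR hRp x (hne hx)]
          intro d hd _
          exact hRt _ _ _ (hRP _ _ hd) (hUW x hx)
        unfold up
        rw [if_neg hn1, if_pos hc2]
        constructor
        · intro h; exact hUW y h
        · intro h
          rcases hcase y h with h' | h'
          · exact absurd h' hy
          · exact h'
    · -- case 1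
      push Not at hUW
      obtain ⟨x0, hx0, hx0'⟩ := hUW
      refine ⟨ext p R (fun x => ¬ R p x) (fun y => P p w ∧ R w y), ?_, ?_, ?_⟩
      · apply ext_above
        · intro x _; exact hRr x
        · intro x y z _ _ _; exact hRt x y z
        · intro x y _ _ h1 h2 h3; exact h2 (hRt _ _ _ h3 h1)
        · intro x y _ _ h1 h2; exact ⟨h1.1, hRt _ _ _ h1.2 h2⟩
        · intro x y _ _ h1 h2
          rcases hw2 h2.1 x with h3 | h3
          · exact hRt _ _ _ (hRP _ _ h3) h2.2
          · exact absurd (hRt _ _ _ (hRP _ _ h2.1) (hRP _ _ h3)) h1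
        · intro x y _ _ h; exact hRP _ _ h
        · intro x hx h h'
          rcases hcase x h' with h'' | h''
          · exact hx h''
          · exact h'' h
        · intro y hy h
          rcases hp y h with h' | h'
          · exact absurd h' hy
          · exact ⟨h'.1, hRP _ _ h'.2⟩
      · exact ⟨x0, by rw [ext_x _ _ _ (hne hx0)]; exact hx0', hx0⟩
      · apply dec_eq hR hRp (core_of hR hRp)
        intro y hy
        have hc1 : c1 P p w (ext p R (fun x => ¬ R p x) (fun y => P p w ∧ R w y)) := by
          refine ⟨cl_of hPp hR hRp, ?_, ?_, ?_⟩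
          · rintro ⟨h1, h2⟩
            rw [ext_p _ _ _ hwp] at h1
            rw [ext_x _ _ _ hwp] at h2
            exact h2 (hRP _ _ h1.1)
          · intro z hz h
            rw [ext_p _ _ _ hz] at h
            rw [ext_xy _ _ _ hwp hz]
            exact h
          · intro x hx h
            rw [ext_x _ _ _ (hne hx), not_not] at h
            rw [ub_of hR hRp x (hne hx)]
            intro d hd _
            exact hRt _ _ _ (hRP _ _ hd) h
        unfold up
        rw [if_pos hc1, ext_x _ _ _ hy, not_not]
  · -- case 3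
    push Not at hcase
    obtain ⟨t, hpt, htp, hPt'⟩ := hcase
    have hub : ∀ y, R p y ↔ ∀ x, P x p → x ≠ p → R x y := by
      intro y
      constructor
      · intro h x hx _; exact hRt _ _ _ (hRP _ _ hx) h
      · intro h; exact hRt _ _ _ hpt (h t hPt' htp)
    by_cases hS : ∀ x y, (¬ P x p ∧ (P p w → R x w)) → (¬ P y p ∧ (P p w → R y w)) → R x y
    · -- case 3a
      refine ⟨ext p (fun x y => R x y ∨ ((¬ P x p ∧ (P p w → R x w)) ∧ R p y))
        (fun x => P p w → R x w) (fun y => P p w ∧ R p y), ?_, ?_, ?_⟩
      · apply ext_above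
        · intro x _; exact Or.inl (hRr x)
        · intro x y z hx hy hz h1 h2
          rcases h1 with h1 | h1 <;> rcases h2 with h2 | h2
          · exact Or.inl (hRt _ _ _ h1 h2)
          · by_cases hxP : P x p
            · exact Or.inl (hRt _ _ _ (hRP _ _ hxP) h2.2)
            · exact Or.inr ⟨⟨hxP, fun hb => hRt _ _ _ h1 (h2.1.2 hb)⟩, h2.2⟩
          · exact Or.inr ⟨h1.1, hRt _ _ _ h1.2 h2⟩
          · exact Or.inr ⟨h1.1, h2.2⟩
        · intro x y _ _ h1 h2 hb
          rcases h1 with h1 | h1
          · exact hRt _ _ _ h1 (h2 hb)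
          · exact h1.1.2 hb
        · intro x y _ _ h1 h2
          refine ⟨h1.1, ?_⟩
          rcases h2 with h2 | h2
          · exact hRt _ _ _ h1.2 h2
          · exact h2.2
        · intro x y _ _ h1 h2
          by_cases hxP : P x p
          · exact Or.inl (hRt _ _ _ (hRP _ _ hxP) h2.2)
          · exact Or.inr ⟨⟨hxP, h1⟩, h2.2⟩
        · intro x y _ _ h; exact Or.inl (hRP _ _ h)
        · intro x _ h hb; exact hRt _ _ _ (hRP _ _ h) (hRP _ _ hb)
        · intro y hy h
          rcases hp y h with h' | h'
          · exact absurd h' hy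
          · exact ⟨h'.1, hRP _ _ h⟩
      · exact ⟨w, by rw [ext_x _ _ _ hwp]; exact fun _ => hRr w, hw⟩
      · have hcore : ∀ x y, x ≠ p → y ≠ p →
            (core P p (ext p (fun x y => R x y ∨ ((¬ P x p ∧ (P p w → R x w)) ∧ R p y))
              (fun x => P p w → R x w) (fun y => P p w ∧ R p y)) x y ↔ R x y) := by
          intro x y hx hy
          unfold core
          rw [ext_xy _ _ _ hx hy]
          constructor
          · rintro ⟨h1 | h1, h2⟩
            · exact h1
            · by_cases hyP : P y p
              · exact absurd ⟨h1.1.1, hyP⟩ h2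
              · by_cases hb : P p w
                · rcases hw2 hb y with h3 | h3
                  · exact hS x y h1.1 ⟨hyP, fun _ => hRP _ _ h3⟩
                  · exact hRt _ _ _ (h1.1.2 hb) (hRP _ _ h3)
                · exact hS x y h1.1 ⟨hyP, fun h => absurd h hb⟩
          · intro h
            exact ⟨Or.inl h, fun h' => h'.1 (hRp x (hRt x y p h (hRP y p h'.2)))⟩
        have hnCl : ¬ Cl P p (ext p (fun x y => R x y ∨ ((¬ P x p ∧ (P p w → R x w)) ∧ R p y))
              (fun x => P p w → R x w) (fun y => P p w ∧ R p y)) := by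
          intro h
          apply h w t hw hPt' htp
          rw [ext_xy _ _ _ hwp htp]
          exact Or.inr ⟨⟨hw, fun _ => hRr w⟩, hpt⟩
        apply dec_eq hR hRp hcore
        intro y hy
        unfold up
        rw [if_neg (fun h => hnCl h.1), if_neg (fun h => hnCl h.1), hub y]
        unfold UB
        constructor
        · intro h x hx hxp; exact (hcore x y hxp hy).1 (h x hx hxp)
        · intro h x hx hxp; exact (hcore x y hxp hy).2 (h x hx hxp)
    · push Not at hS
      obtain ⟨a, b, ha, hb, hab⟩ := hS
      by_cases hV : ∃ v, ¬ P v p ∧ R p v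
      · -- case 3b
        have hv : ∃ v, ¬ P v p ∧ R p v ∧ (P p w → R v w) ∧
            ((∀ x, ¬ P x p → R p x) → ¬ (R v w ∧ R w v)) := by
          by_cases hUW : ∀ x, ¬ P x p → R p x
          · by_cases haw : R a w ∧ R w a
            · exact ⟨b, hb.1, hUW b hb.1, hb.2, fun _ h => hab (hRt _ _ _ haw.1 h.2)⟩
            · exact ⟨a, ha.1, hUW a ha.1, ha.2, fun _ h => haw h⟩
          · by_cases hpw : P p w
            · exact ⟨w, hw, hRP _ _ hpw, fun _ => hRr w, fun h => absurd h hUW⟩
            · obtain ⟨v, hv1, hv2⟩ := hV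
              exact ⟨v, hv1, hv2, fun h => absurd h hpw, fun h => absurd h hUW⟩
        obtain ⟨v, hv1, hv2, hvw, hv3⟩ := hv
        have hvp := hne hv1
        refine ⟨ext p R (fun x => R x v) (fun y => R v y), ?_, ?_, ?_⟩
        · apply ext_above
          · intro x _; exact hRr x
          · intro x y z _ _ _; exact hRt x y z
          · intro x y _ _ h1 h2; exact hRt _ _ _ h1 h2
          · intro x y _ _ h1 h2; exact hRt _ _ _ h1 h2
          · intro x y _ _ h1 h2; exact hRt _ _ _ h1 h2
          · intro x y _ _ h; exact hRP _ _ h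
          · intro x _ h; exact hRt _ _ _ (hRP _ _ h) hv2
          · intro y hy h
            rcases hp y h with h' | h'
            · exact absurd h' hy
            · exact hRt _ _ _ (hvw h'.1) (hRP _ _ h'.2)
        · exact ⟨v, by rw [ext_x _ _ _ hvp]; exact hRr v, hv1⟩
        · apply dec_eq hR hRp (core_of hR hRp)
          intro y hy
          have hn1 : ¬ c1 P p w (ext p R (fun x => R x v) (fun y => R v y)) := by
            rintro ⟨-, h2, h3, -⟩
            have h4 := h3 v hvp (by rw [ext_p _ _ _ hvp]; exact hRr v)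
            rw [ext_xy _ _ _ hwp hvp] at h4
            apply h2
            rw [ext_p _ _ _ hwp, ext_x _ _ _ hwp]
            exact ⟨hvw h4.1, h4.2⟩
          have hn2 : ¬ c2 P p w (ext p R (fun x => R x v) (fun y => R v y)) := by
            rintro ⟨-, h2, h3, h4⟩
            rw [ext_p _ _ _ hwp] at h3
            rw [ext_x _ _ _ hwp] at h4
            refine hv3 ?_ ⟨h3, h4⟩
            intro x hx
            rw [hub x]
            exact (ub_of hR hRp x (hne hx)).1 (h2 x hx)
          unfold up
          rw [if_neg hn1, if_neg hn2, ub_of hR hRp y hy, hub y]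
      · -- case 3c
        push Not at hV
        have hnpw : ¬ P p w := fun h => hV w hw (hRP _ _ h)
        refine ⟨ext p R (fun x => P x p ∨ R x b) (fun _ => False), ?_, ?_, ?_⟩
        · apply ext_above
          · intro x _; exact hRr x
          · intro x y z _ _ _; exact hRt x y z
          · intro x y _ _ h1 h2
            rcases h2 with h2 | h2
            · exact Or.inl (hRp x (hRt _ _ _ h1 (hRP _ _ h2)))
            · exact Or.inr (hRt _ _ _ h1 h2)
          · intro x y _ _ h1 _; exact h1
          · intro x y _ _ _ h2; exact absurd h2 id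
          · intro x y _ _ h; exact hRP _ _ h
          · intro x _ h; exact Or.inl h
          · intro y hy h
            rcases hp y h with h' | h'
            · exact absurd h' hy
            · exact hnpw h'.1
        · exact ⟨b, by rw [ext_x _ _ _ (hne hb.1)]; exact Or.inr (hRr b), hb.1⟩
        · apply dec_eq hR hRp (core_of hR hRp)
          intro y hy
          have hn1 : ¬ c1 P p w (ext p R (fun x => P x p ∨ R x b) (fun _ => False)) := by
            rintro ⟨-, -, -, h4⟩
            have h5 := h4 a ha.1 (by
              rw [ext_x _ _ _ (hne ha.1)]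
              rintro (h | h)
              · exact ha.1 h
              · exact hab h)
            rw [ub_of hR hRp a (hne ha.1)] at h5
            exact hV a ha.1 ((hub a).2 h5)
          have hn2 : ¬ c2 P p w (ext p R (fun x => P x p ∨ R x b) (fun _ => False)) := by
            rintro ⟨-, -, h3, -⟩
            rw [ext_p _ _ _ hwp] at h3
            exact h3
          unfold up
          rw [if_neg hn1, if_neg hn2, ub_of hR hRp y hy, hub y]

end Pool.Agent.Helper566.QO
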