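import Pool.Agent.Helper566_Q.Core

set_option autoImplicit false

namespace Pool.Agent.Helper566.QO

open Classical

variable {X : Type*}

lemma split_ncard [Finite X] (P : X → X → Prop) (c : (X → X → Prop) → Prop) :
    {R : X → X → Prop | Above P R}.ncard = {R : X → X → Prop | Above P R ∧ c R}.ncard +
      {R : X → X → Prop | Above P R ∧ ¬ c R}.ncard := by
  have hfin : Finite (X → X → Prop) := inferInstance
  have h1 : {R : X → X → Prop | Above P R} = {R : X → X → Prop | Above P R ∧ c R} ∪
      {R : X → X → Prop | Above P R ∧ ¬ c R} := by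
    ext R
    constructor
    · intro h
      by_cases h' : c R
      · exact Or.inl ⟨h, h'⟩
      · exact Or.inr ⟨h, h'⟩
    · rintro (h | h)
      · exact h.1
      · exact h.1
  have h2 : Disjoint {R : X → X → Prop | Above P R ∧ c R}
      {R : X → X → Prop | Above P R ∧ ¬ c R} := by
    rw [Set.disjoint_left]
    rintro R ⟨-, h⟩ ⟨-, h'⟩
    exact h' h
  rw [h1]
  exact Set.ncard_union_eq h2 (Set.toFinite _) (Set.toFinite _)

lemma half_of_dec [Finite X] (P : X → X → Prop) (c : (X → X → Prop) → Prop)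
    (f : (X → X → Prop) → (X → X → Prop))
    (h : ∀ R, Above P R → c R → ∃ R', Above P R' ∧ ¬ c R' ∧ f R' = R) :
    2 * {R : X → X → Prop | Above P R ∧ c R}.ncard ≤ {R : X → X → Prop | Above P R}.ncard := by
  have hfin : Finite (X → X → Prop) := inferInstance
  have h4 : {R : X → X → Prop | Above P R ∧ c R} ⊆
      f '' {R : X → X → Prop | Above P R ∧ ¬ c R} := by
    rintro R ⟨hR, hRp⟩
    obtain ⟨R', hR', hx, hd⟩ := h R hR hRp
    exact ⟨R', ⟨hR', hx⟩, hd⟩
  have h5 : {R : X → X → Prop | Above P R ∧ c R}.ncard ≤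
      {R : X → X → Prop | Above P R ∧ ¬ c R}.ncard :=
    le_trans (Set.ncard_le_ncard h4 (Set.toFinite _)) (Set.ncard_image_le (Set.toFinite _))
  rw [split_ncard P c]
  omega

lemma half_of_dec_strict [Finite X] (P : X → X → Prop) (c : (X → X → Prop) → Prop)
    (f : (X → X → Prop) → (X → X → Prop))
    (h : ∀ R, Above P R → c R → ∃ R', Above P R' ∧ ¬ c R' ∧ f R' = R)
    (R0 R1 : X → X → Prop) (h0 : Above P R0) (h0' : ¬ c R0) (h1 : Above P R1) (h1' : ¬ c R1)
    (hne : R1 ≠ R0) (hf : f R1 = f R0) :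
    2 * {R : X → X → Prop | Above P R ∧ c R}.ncard < {R : X → X → Prop | Above P R}.ncard := by
  have hfin : Finite (X → X → Prop) := inferInstance
  have h4 : {R : X → X → Prop | Above P R ∧ c R} ⊆
      f '' ({R : X → X → Prop | Above P R ∧ ¬ c R} \ {R0}) := by
    rintro R ⟨hR, hRp⟩
    obtain ⟨R', hR', hx, hd⟩ := h R hR hRp
    by_cases hR0 : R' = R0
    · exact ⟨R1, ⟨⟨h1, h1'⟩, hne⟩, by rw [hf, ← hR0, hd]⟩
    · exact ⟨R', ⟨⟨hR', hx⟩, hR0⟩, hd⟩
  have h5 : {R : X → X → Prop | Above P R ∧ c R}.ncard ≤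
      ({R : X → X → Prop | Above P R ∧ ¬ c R} \ {R0}).ncard :=
    le_trans (Set.ncard_le_ncard h4 (Set.toFinite _)) (Set.ncard_image_le (Set.toFinite _))
  have h6 : ({R : X → X → Prop | Above P R ∧ ¬ c R} \ {R0}).ncard <
      {R : X → X → Prop | Above P R ∧ ¬ c R}.ncard :=
    Set.ncard_sdiff_singleton_lt_of_mem (s := {R : X → X → Prop | Above P R ∧ ¬ c R}) ⟨h0, h0'⟩
      (Set.toFinite _)
  rw [split_ncard P c]
  omega

lemma main' (P : X → X → Prop) (hPr : ∀ x, P x x)
    (p w : X) (hw : ¬ P w p) (hp : ∀ y, P p y → y = p ∨ (P p w ∧ P w y))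
    (hw2 : P p w → ∀ x, P x w ∨ P w x)
    (R : X → X → Prop) (hR : Above P R) (hRp : ∀ x, R x p → P x p) :
    ∃ R', Above P R' ∧ ¬ (∀ x, R' x p → P x p) ∧ dec P p w R' = R := by
  obtain ⟨R', h1, ⟨x, hx, hx'⟩, h3⟩ := main P hPr p w hw hp hw2 R hR hRp
  exact ⟨R', h1, fun h => hx' (h x hx), h3⟩

/-- For a partial order on a finite set with at least two points there is a good principal
down-set. -/
theorem exists_half [Finite X] [Nontrivial X] [PartialOrder X] :
    ∃ p : X, (∃ w : X, ¬ w ≤ p) ∧
      2 * {R : X → X → Prop | Above (fun x y : X => x ≤ y) R ∧ ∀ x, R x p → x ≤ p}.ncard ≤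
      {R : X → X → Prop | Above (fun x y : X => x ≤ y) R}.ncard := by
  by_cases hT : ∃ t : X, ∀ x, x ≤ t
  · obtain ⟨t, ht⟩ := hT
    obtain ⟨q, hq⟩ := exists_ne t
    obtain ⟨p, hpm⟩ := (Set.toFinite {x : X | x ≠ t}).exists_maximal ⟨q, hq⟩
    have hpt : p ≠ t := hpm.1
    have hw : ¬ t ≤ p := fun h => hpt (le_antisymm (ht p) h)
    refine ⟨p, ⟨t, hw⟩, ?_⟩
    apply half_of_dec (fun x y : X => x ≤ y) _ (dec (fun x y : X => x ≤ y) p t)
    intro R
    apply main' (fun x y : X => x ≤ y) (fun x => le_refl x) p t hw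
    · intro y hy
      by_cases hyt : y = t
      · exact Or.inr ⟨ht p, hyt ▸ le_rfl⟩
      · exact Or.inl (le_antisymm (hpm.2 hyt hy) hy)
    · intro _ x; exact Or.inl (ht x)
  · push Not at hT
    obtain ⟨p, hpm⟩ := (Set.toFinite (Set.univ : Set X)).exists_maximal ⟨Classical.arbitrary X, trivial⟩
    obtain ⟨w, hw⟩ := hT p
    refine ⟨p, ⟨w, hw⟩, ?_⟩
    apply half_of_dec (fun x y : X => x ≤ y) _ (dec (fun x y : X => x ≤ y) p w)
    intro R
    apply main' (fun x y : X => x ≤ y) (fun x => le_refl x) p w hw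
    · intro y hy
      exact Or.inl (le_antisymm (hpm.2 trivial hy) hy)
    · intro h x
      exact absurd (hpm.2 trivial h) hw

/-- `dec` depends only on the relation off `p` and on `up`. -/
lemma dec_congr {P : X → X → Prop} {p w : X} {R0 R1 : X → X → Prop}
    (hcore : ∀ x y, x ≠ p → y ≠ p → (core P p R0 x y ↔ core P p R1 x y))
    (hu : ∀ y, y ≠ p → (up P p w R0 y ↔ up P p w R1 y)) : dec P p w R0 = dec P p w R1 := by
  funext x y
  apply propext
  unfold dec
  by_cases hx : x = p
  · rw [if_pos hx, if_pos hx]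
    by_cases hy : y = p
    · exact ⟨fun _ => Or.inl hy, fun _ => Or.inl hy⟩
    · rw [hu y hy]
  · rw [if_neg hx, if_neg hx]
    by_cases hy : y = p
    · rw [if_pos hy, if_pos hy]
    · rw [if_neg hy, if_neg hy]
      exact hcore x y hx hy

lemma up_ub {P : X → X → Prop} {p w : X} {R : X → X → Prop} {y : X} (h1 : ¬ c1 P p w R)
    (h2 : ¬ c2 P p w R) : up P p w R y ↔ UB P p R y := by
  unfold up; rw [if_neg h1, if_neg h2]

lemma up_c2 {P : X → X → Prop} {p w : X} {R : X → X → Prop} {y : X} (h1 : ¬ c1 P p w R)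
    (h2 : c2 P p w R) : up P p w R y ↔ ¬ P y p := by
  unfold up; rw [if_neg h1, if_pos h2]

/-- the case where nothing is below `p`: `p` can be glued to `v` or to `w`. -/
lemma strict_aux [Finite X] [PartialOrder X] (p v w : X) (hmin : ∀ x, ¬ x < p) (hvp : v ≠ p)
    (hwp : w ≠ p) (hvw : v ≠ w) (hv : ∀ y, p < y → v ≤ y)
    (hvw' : p ≤ w → ¬ w ≤ v)
    (hp : ∀ y, p ≤ y → y = p ∨ (p ≤ w ∧ w ≤ y)) (hw2 : p ≤ w → ∀ x, x ≤ w ∨ w ≤ x) :
    2 * {R : X → X → Prop | Above (fun x y : X => x ≤ y) R ∧ ∀ x, R x p → x ≤ p}.ncard <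
      {R : X → X → Prop | Above (fun x y : X => x ≤ y) R}.ncard := by
  have hmin' : ∀ x, x ≤ p → x = p := by
    intro x hx
    by_contra hne
    exact hmin x (lt_of_le_of_ne hx hne)
  have hw : ¬ w ≤ p := fun h => hwp (hmin' w h)
  have hcl : ∀ R : X → X → Prop, Cl (fun x y : X => x ≤ y) p R := by
    intro R x y _ hy hyp
    exact absurd (hmin' y hy) hyp
  have hub : ∀ (R : X → X → Prop) y, UB (fun x y : X => x ≤ y) p R y := by
    intro R y x hx hxp
    exact absurd (hmin' x hx) hxp
  have habove : ∀ u : X, u ≠ p → (∀ y, p < y → u ≤ y) →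
      Above (fun x y : X => x ≤ y) (ext p (fun x y : X => x ≤ y) (fun x => x ≤ u)
        (fun y => u ≤ y)) := by
    intro u hu hu'
    apply ext_above
    · intro x _; exact le_rfl
    · intro x y z _ _ _ h1 h2; exact le_trans h1 h2
    · intro x y _ _ h1 h2; exact le_trans h1 h2
    · intro x y _ _ h1 h2; exact le_trans h1 h2
    · intro x y _ _ h1 h2; exact le_trans h1 h2
    · intro x y _ _ h1; exact h1
    · intro x hx h; exact absurd (hmin' x h) hx
    · intro y hy h; exact hu' y (lt_of_le_of_ne h (Ne.symm hy))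
  have hwC : ∀ y, p < y → w ≤ y := by
    intro y hy
    rcases hp y hy.le with h | h
    · exact absurd h hy.ne'
    · exact h.2
  apply half_of_dec_strict (fun x y : X => x ≤ y) _ (dec (fun x y : X => x ≤ y) p w)
    (fun R => main' (fun x y : X => x ≤ y) (fun x => le_refl x) p w hw hp hw2 R)
    _ _ (habove v hvp hv) _ (habove w hwp hwC)
  · intro h
    have := h w (by rw [ext_x _ _ _ hwp])
    exact hw this
  · intro h
    have h1 := congrFun (congrFun h w) p
    have h2 := congrFun (congrFun h p) w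
    have h3 : ext p (fun x y : X => x ≤ y) (fun x => x ≤ w) (fun y => w ≤ y) w p := by
      rw [ext_x _ _ _ hwp]
    have h4 : ext p (fun x y : X => x ≤ y) (fun x => x ≤ w) (fun y => w ≤ y) p w := by
      rw [ext_p _ _ _ hwp]
    rw [h1, ext_x _ _ _ hwp] at h3
    rw [h2, ext_p _ _ _ hwp] at h4
    exact hvw (le_antisymm h4 h3)
  · apply dec_congr
    · intro x y hx hy
      unfold core
      rw [ext_xy _ _ _ hx hy, ext_xy _ _ _ hx hy]
    · intro y hy
      have hw1 : ext p (fun x y : X => x ≤ y) (fun x => x ≤ w) (fun y => w ≤ y) p w := by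
        rw [ext_p _ _ _ hwp]
      have hw3 : ext p (fun x y : X => x ≤ y) (fun x => x ≤ w) (fun y => w ≤ y) w p := by
        rw [ext_x _ _ _ hwp]
      have a1 : up (fun x y : X => x ≤ y) p w
          (ext p (fun x y : X => x ≤ y) (fun x => x ≤ w) (fun y => w ≤ y)) y ↔ ¬ y ≤ p :=
        up_c2 (fun h => h.2.1 ⟨hw1, hw3⟩) ⟨hcl _, fun x _ => hub _ x, hw1, hw3⟩
      have a2 : up (fun x y : X => x ≤ y) p w
          (ext p (fun x y : X => x ≤ y) (fun x => x ≤ v) (fun y => v ≤ y)) y ↔
          UB (fun x y : X => x ≤ y) p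
            (ext p (fun x y : X => x ≤ y) (fun x => x ≤ v) (fun y => v ≤ y)) y := by
        apply up_ub
        · rintro ⟨-, -, h3, -⟩
          have h4 := h3 v hvp (by rw [ext_p _ _ _ hvp])
          rw [ext_xy _ _ _ hwp hvp] at h4
          exact hvw' h4.1 h4.2
        · rintro ⟨-, -, h3, h4⟩
          rw [ext_p _ _ _ hwp] at h3
          rw [ext_x _ _ _ hwp] at h4
          exact hvw (le_antisymm h3 h4)
      rw [a1, a2]
      exact ⟨fun _ => hub _ y, fun _ h => hy (hmin' y h)⟩
  · intro h
    have := h v (by rw [ext_x _ _ _ hvp])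
    exact hvp (hmin' v this)

theorem exists_half_strict [Finite X] [PartialOrder X]
    (hinc : ∃ x y z : X, ¬ x ≤ y ∧ ¬ y ≤ x ∧ z ≠ x ∧ z ≠ y) :
    ∃ p : X, (∃ w : X, ¬ w ≤ p) ∧
      2 * {R : X → X → Prop | Above (fun x y : X => x ≤ y) R ∧ ∀ x, R x p → x ≤ p}.ncard <
      {R : X → X → Prop | Above (fun x y : X => x ≤ y) R}.ncard := by
  obtain ⟨x0, x1, x2, h01, h10, h20, h21⟩ := hinc
  obtain ⟨p, hpm⟩ := (Set.toFinite {x : X | ∃ y, ¬ x ≤ y ∧ ¬ y ≤ x}).exists_maximal
    ⟨x0, x1, h01, h10⟩
  obtain ⟨y0, hy0, hy0'⟩ := hpm.1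
  have hcomp : ∀ x, p < x → ∀ y, x ≤ y ∨ y ≤ x := by
    intro x hx y
    by_contra hn
    push Not at hn
    exact absurd (hpm.2 ⟨y, hn.1, hn.2⟩ hx.le) (not_le_of_gt hx)
  have hy0p : y0 ≠ p := by rintro rfl; exact hy0 le_rfl
  by_cases hC : ∃ x, p < x
  · -- elements above `p`
    obtain ⟨w, hwm⟩ := (Set.toFinite {x : X | p < x}).exists_minimal hC
    have hpw : p < w := hwm.1
    have hw : ¬ w ≤ p := not_le_of_gt hpw
    have hp : ∀ y, p ≤ y → y = p ∨ (p ≤ w ∧ w ≤ y) := by
      intro y hy
      rcases eq_or_lt_of_le hy with h | h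
      · exact Or.inl h.symm
      · right
        refine ⟨hpw.le, ?_⟩
        rcases hcomp w hpw y with h' | h'
        · exact h'
        · exact hwm.2 h h'
    have hw2 : p ≤ w → ∀ x, x ≤ w ∨ w ≤ x := fun _ x => (hcomp w hpw x).symm
    have hwy0 : ¬ w ≤ y0 := fun h => hy0 (le_trans hpw.le h)
    have hy0w : y0 ≤ w := (hcomp w hpw y0).resolve_left hwy0
    refine ⟨p, ⟨w, hw⟩, ?_⟩
    by_cases hD : ∃ d, d < p
    · obtain ⟨d, hd⟩ := hD
      have hwd : ¬ w ≤ d := fun h => hw (le_trans h hd.le)
      apply half_of_dec_strict (fun x y : X => x ≤ y) _ (dec (fun x y : X => x ≤ y) p w)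
        (fun R => main' (fun x y : X => x ≤ y) (fun x => le_refl x) p w hw hp hw2 R)
        (fun x y => ¬ w ≤ x ∨ w ≤ y) (fun x y => w ≤ y ∨ (¬ w ≤ x ∧ (x < p ∨ ¬ y < p)))
      · refine ⟨?_, ?_, ?_⟩
        · intro x; tauto
        · intro x y z; tauto
        · intro x y hxy
          by_cases h : w ≤ x
          · exact Or.inr (le_trans h hxy)
          · exact Or.inl h
      · intro h
        exact hy0' (h y0 (Or.inl hwy0))
      · refine ⟨?_, ?_, ?_⟩
        · intro x; tauto
        · intro x y z; tauto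
        · intro x y hxy
          by_cases h : w ≤ y
          · exact Or.inl h
          · right
            refine ⟨fun h' => h (le_trans h' hxy), ?_⟩
            by_cases h' : y < p
            · exact Or.inl (lt_of_le_of_lt hxy h')
            · exact Or.inr h'
      · intro h
        exact hy0' (h y0 (Or.inr ⟨hwy0, Or.inr (lt_irrefl p)⟩))
      · intro h
        have h' := congrFun (congrFun h y0) d
        have h2 : ¬ w ≤ y0 ∨ w ≤ d := Or.inl hwy0
        rw [← h'] at h2
        rcases h2 with h2 | ⟨-, h2 | h2⟩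
        · exact hwd h2
        · exact hy0' h2.le
        · exact h2 hd
      · apply dec_congr
        · intro x y hx hy
          unfold core
          constructor
          · rintro ⟨h1, h2⟩
            refine ⟨?_, h2⟩
            rcases h1 with h1 | ⟨h1, -⟩
            · exact Or.inr h1
            · exact Or.inl h1
          · rintro ⟨h1, h2⟩
            refine ⟨?_, h2⟩
            by_cases h3 : w ≤ y
            · exact Or.inl h3
            · right
              refine ⟨h1.resolve_right h3, ?_⟩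
              by_contra hn
              push Not at hn
              exact h2 ⟨fun h => hn.1 (lt_of_le_of_ne h hx), hn.2.le⟩
        · intro y hy
          have hub1 : ∀ y, UB (fun x y : X => x ≤ y) p
              (fun x y => w ≤ y ∨ (¬ w ≤ x ∧ (x < p ∨ ¬ y < p))) y := by
            intro y x hx hxp
            exact ⟨Or.inr ⟨fun h => hw (le_trans h hx), Or.inl (lt_of_le_of_ne hx hxp)⟩,
              fun h => h.1 hx⟩
          have hub0 : ∀ y, UB (fun x y : X => x ≤ y) p
              (fun x y => ¬ w ≤ x ∨ w ≤ y) y := by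
            intro y x hx hxp
            exact ⟨Or.inl (fun h => hw (le_trans h hx)), fun h => h.1 hx⟩
          have hn0 : ¬ Cl (fun x y : X => x ≤ y) p (fun x y => ¬ w ≤ x ∨ w ≤ y) := by
            intro h
            exact h y0 d hy0' hd.le hd.ne (Or.inl hwy0)
          rw [up_ub (R := fun x y => ¬ w ≤ x ∨ w ≤ y) (fun h => hn0 h.1) (fun h => hn0 h.1),
            up_ub (R := fun x y => w ≤ y ∨ (¬ w ≤ x ∧ (x < p ∨ ¬ y < p)))]
          · exact ⟨fun _ => hub0 y, fun _ => hub1 y⟩
          · rintro ⟨-, -, h3, -⟩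
            have := (h3 y0 hy0p (Or.inr ⟨hw, Or.inr (fun h => hy0' h.le)⟩)).2
            rcases this with h4 | ⟨h4, -⟩
            · exact hwy0 h4
            · exact h4 le_rfl
          · rintro ⟨-, -, -, h4⟩
            rcases h4 with h4 | ⟨h4, -⟩
            · exact hw h4
            · exact h4 le_rfl
    · push Not at hD
      apply strict_aux p y0 w hD hy0p (fun h => hw h.le) (fun h => hwy0 h.ge) _ (fun _ => hwy0)
        hp hw2
      intro y hy
      rcases hcomp y hy y0 with h | h
      · exact absurd (le_trans hy.le h) hy0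
      · exact h
  · push Not at hC
    have hp : ∀ y, p ≤ y → y = p := by
      intro y hy
      by_contra hne
      exact hC y (lt_of_le_of_ne hy (Ne.symm hne))
    refine ⟨p, ⟨y0, hy0'⟩, ?_⟩
    by_cases hD : ∃ d, d < p
    · obtain ⟨d, hd⟩ := hD
      apply half_of_dec_strict (fun x y : X => x ≤ y) _ (dec (fun x y : X => x ≤ y) p y0)
        (fun R => main' (fun x y : X => x ≤ y) (fun x => le_refl x) p y0 hy0'
          (fun y hy => Or.inl (hp y hy)) (fun h => absurd h hy0) R)
        (fun _ _ => True) (fun x y => x ≠ p ∨ y = p)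
      · exact ⟨fun _ => trivial, fun _ _ _ _ _ => trivial, fun _ _ _ => trivial⟩
      · intro h
        exact hy0' (h y0 trivial)
      · refine ⟨fun x => ?_, ?_, ?_⟩
        · by_cases h : x = p
          · exact Or.inr h
          · exact Or.inl h
        · intro x y z h1 h2
          by_cases h : x = p
          · rcases h1 with h1 | h1
            · exact absurd h h1
            · rcases h2 with h2 | h2
              · exact absurd h1 h2
              · exact Or.inr h2
          · exact Or.inl h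
        · intro x y hxy
          by_cases h : x = p
          · subst h; exact Or.inr (hp y hxy)
          · exact Or.inl h
      · intro h
        exact hy0' (h y0 (Or.inl hy0p))
      · intro h
        have h' := congrFun (congrFun h p) y0
        have h2 : True := trivial
        rw [← h'] at h2
        rcases h2 with h2 | h2
        · exact h2 rfl
        · exact hy0p h2
      · apply dec_congr
        · intro x y hx hy
          unfold core
          exact ⟨fun h => ⟨trivial, h.2⟩, fun h => ⟨Or.inl hx, h.2⟩⟩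
        · intro y hy
          have hn0 : ¬ Cl (fun x y : X => x ≤ y) p (fun _ _ => True) := by
            intro h; exact h y0 d hy0' hd.le hd.ne trivial
          have hn1 : ¬ Cl (fun x y : X => x ≤ y) p (fun x y => x ≠ p ∨ y = p) := by
            intro h; exact h y0 d hy0' hd.le hd.ne (Or.inl hy0p)
          rw [up_ub (R := fun _ _ => True) (fun h => hn0 h.1) (fun h => hn0 h.1),
            up_ub (R := fun x y => x ≠ p ∨ y = p) (fun h => hn1 h.1) (fun h => hn1 h.1)]
          constructor
          · intro _ x hx _; exact ⟨trivial, fun h => h.1 hx⟩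
          · intro _ x hx hxp; exact ⟨Or.inl hxp, fun h => h.1 hx⟩
    · push Not at hD
      -- a third point
      have h3 : ∃ v, v ≠ p ∧ v ≠ y0 := by
        by_contra hn
        push Not at hn
        have a0 := hn x0
        have a1 := hn x1
        have a2 := hn x2
        have hne : x0 ≠ x1 := fun h => h01 h.le
        by_cases e0 : x0 = p
        · have e1 := a1 (fun h => hne (e0.trans h.symm))
          by_cases e2 : x2 = p
          · exact h20 (e2.trans e0.symm)
          · exact h21 ((a2 e2).trans e1.symm)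
        · have e0' := a0 e0
          by_cases e1 : x1 = p
          · by_cases e2 : x2 = p
            · exact h21 (e2.trans e1.symm)
            · exact h20 ((a2 e2).trans e0'.symm)
          · exact hne (e0'.trans (a1 e1).symm)
      obtain ⟨v, hvp, hvy⟩ := h3
      exact strict_aux p v y0 hD hvp hy0p hvy (fun y hy => absurd hy (hC y))
        (fun h => absurd h hy0) (fun y hy => Or.inl (hp y hy)) (fun h => absurd h hy0)

end Pool.Agent.Helper566.QO
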