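import Pool.Agent.Helper566_Q.Count

set_option autoImplicit false

namespace Pool.Agent.Helper566.QO

open Classical

variable {X : Type*} [PartialOrder X]

/-- add the pair `(a, b)` -/
def dec2 (a b : X) (R : X → X → Prop) : X → X → Prop := fun x y => R x y ∨ (R x a ∧ R b y)

/-- split the class of `a` and `b` -/
def spl (a b : X) (R : X → X → Prop) : X → X → Prop := fun x y => R x y ∧ ¬ (R a x ∧ ¬ x ≤ b ∧ y ≤ b)

abbrev leR (X : Type*) [PartialOrder X] : X → X → Prop := fun x y => x ≤ y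

lemma spl_above {a b : X} (hba : b ≤ a) (hab : ¬ a ≤ b) {R : X → X → Prop}
    (hR : Above (leR X) R) (hRab : R a b) :
    Above (leR X) (spl a b R) ∧ ¬ spl a b R a b ∧ dec2 a b (spl a b R) = R := by
  obtain ⟨hr, ht, hP⟩ := hR
  refine ⟨⟨?_, ?_, ?_⟩, ?_, ?_⟩
  · intro x; exact ⟨hr x, fun h => h.2.1 h.2.2⟩
  · rintro x y z ⟨h1, h2⟩ ⟨h3, h4⟩
    refine ⟨ht _ _ _ h1 h3, ?_⟩
    rintro ⟨h5, h6, h7⟩
    by_cases hy : y ≤ b
    · exact h2 ⟨h5, h6, hy⟩
    · exact h4 ⟨ht _ _ _ h5 h1, hy, h7⟩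
  · intro x y hxy
    exact ⟨hP _ _ hxy, fun h => h.2.1 (le_trans hxy h.2.2)⟩
  · intro h; exact h.2 ⟨hr a, hab, le_rfl⟩
  · funext x y
    apply propext
    unfold dec2 spl
    constructor
    · rintro (h | ⟨h1, h2⟩)
      · exact h.1
      · exact ht _ _ _ h1.1 (ht _ _ _ hRab h2.1)
    · intro h
      by_cases hc : R a x ∧ ¬ x ≤ b ∧ y ≤ b
      · right
        refine ⟨⟨ht _ _ _ h (hP _ _ (le_trans hc.2.2 hba)), fun h' => hab h'.2.2⟩,
          ⟨ht _ _ _ (hP _ _ hba) (ht _ _ _ hc.1 h), fun h' => h'.2.1 le_rfl⟩⟩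
      · exact Or.inl ⟨h, hc⟩

lemma dec2_above {a b : X} {R : X → X → Prop} (hR : Above (leR X) R) :
    Above (leR X) (dec2 a b R) ∧ dec2 a b R a b := by
  obtain ⟨hr, ht, hP⟩ := hR
  refine ⟨⟨fun x => Or.inl (hr x), ?_, fun x y h => Or.inl (hP _ _ h)⟩, Or.inr ⟨hr a, hr b⟩⟩
  rintro x y z (h1 | h1) (h2 | h2)
  · exact Or.inl (ht _ _ _ h1 h2)
  · exact Or.inr ⟨ht _ _ _ h1 h2.1, h2.2⟩
  · exact Or.inr ⟨h1.1, ht _ _ _ h1.2 h2⟩
  · exact Or.inr ⟨h1.1, h2.2⟩

lemma pair_half [Finite X] {a b : X} (hba : b ≤ a) (hab : ¬ a ≤ b) :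
    2 * {R : X → X → Prop | Above (leR X) R ∧ R a b}.ncard ≤
      {R : X → X → Prop | Above (leR X) R}.ncard := by
  apply half_of_dec (leR X) _ (dec2 a b)
  intro R hR hab'
  obtain ⟨h1, h2, h3⟩ := spl_above hba hab hR hab'
  exact ⟨_, h1, h2, h3⟩

lemma pair_half_strict [Finite X] {a b : X} (hba : b ≤ a) (hab : ¬ a ≤ b)
    (R0 : X → X → Prop) (hR0 : Above (leR X) R0) (hR0' : ¬ R0 a b)
    (hne : spl a b (dec2 a b R0) ≠ R0) :
    2 * {R : X → X → Prop | Above (leR X) R ∧ R a b}.ncard <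
      {R : X → X → Prop | Above (leR X) R}.ncard := by
  obtain ⟨h1, h2⟩ := dec2_above (a := a) (b := b) hR0
  obtain ⟨h3, h4, h5⟩ := spl_above hba hab h1 h2
  apply half_of_dec_strict (leR X) _ (dec2 a b) _ R0 (spl a b (dec2 a b R0)) hR0 hR0' h3 h4 hne h5
  intro R hR hab'
  obtain ⟨h1, h2, h3⟩ := spl_above hba hab hR hab'
  exact ⟨_, h1, h2, h3⟩

/-- strictness, `z` incomparable to `a` or to `b` -/
lemma pair_strict [Finite X] {a b z : X} (hba : b < a)
    (hz : (¬ z ≤ a ∧ ¬ a ≤ z) ∨ (¬ z ≤ b ∧ ¬ b ≤ z)) :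
    2 * {R : X → X → Prop | Above (leR X) R ∧ R a b}.ncard <
      {R : X → X → Prop | Above (leR X) R}.ncard := by
  have hab : ¬ a ≤ b := not_le_of_gt hba
  have hP : Above (leR X) (leR X) := ⟨fun x => le_rfl, fun x y z h1 h2 => le_trans h1 h2,
    fun x y h => h⟩
  by_cases h1 : ¬ z ≤ a ∧ ¬ a ≤ z
  · by_cases h2 : b ≤ z
    · -- case B
      apply pair_half_strict hba.le hab (leR X) hP hab
      intro h
      have h3 : spl a b (dec2 a b (leR X)) a z := by
        refine ⟨Or.inr ⟨le_rfl, h2⟩, ?_⟩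
        rintro ⟨-, -, h4⟩
        exact h1.1 (le_trans h4 hba.le)
      rw [h] at h3
      exact h1.2 h3
    · -- case C
      have h2' : ¬ z ≤ b := fun h => h1.1 (le_trans h hba.le)
      apply pair_half_strict hba.le hab
        (fun x y => x ≤ y ∨ (x ≤ b ∧ z ≤ y) ∨ (x ≤ z ∧ a ≤ y))
      · refine ⟨fun x => Or.inl le_rfl, ?_, fun x y h => Or.inl h⟩
        rintro x y t (h3 | h3 | h3) (h4 | h4 | h4)
        · exact Or.inl (le_trans h3 h4)
        · exact Or.inr (Or.inl ⟨le_trans h3 h4.1, h4.2⟩)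
        · exact Or.inr (Or.inr ⟨le_trans h3 h4.1, h4.2⟩)
        · exact Or.inr (Or.inl ⟨h3.1, le_trans h3.2 h4⟩)
        · exact Or.inr (Or.inl ⟨h3.1, h4.2⟩)
        · exact Or.inl (le_trans h3.1 (le_trans hba.le h4.2))
        · exact Or.inr (Or.inr ⟨h3.1, le_trans h3.2 h4⟩)
        · exact Or.inl (le_trans h3.1 h4.2)
        · exact Or.inr (Or.inr ⟨h3.1, h4.2⟩)
      · rintro (h | h | h)
        · exact hab h
        · exact hab h.1
        · exact h1.2 h.1
      · intro h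
        have h3 : spl a b (dec2 a b (fun x y => x ≤ y ∨ (x ≤ b ∧ z ≤ y) ∨ (x ≤ z ∧ a ≤ y))) a z := by
          refine ⟨Or.inr ⟨Or.inl le_rfl, Or.inr (Or.inl ⟨le_rfl, le_rfl⟩)⟩, ?_⟩
          rintro ⟨-, -, h4⟩
          exact h2' h4
        rw [h] at h3
        rcases h3 with h3 | h3 | h3
        · exact h1.2 h3
        · exact hab h3.1
        · exact h1.2 h3.1
  · have h2 := hz.resolve_left h1
    -- `z ≤ a` since `a ≤ z` would give `b ≤ z`
    have h3 : z ≤ a := by
      by_contra h3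
      exact h1 ⟨h3, fun h4 => h2.2 (le_trans hba.le h4)⟩
    apply pair_half_strict hba.le hab (leR X) hP hab
    intro h
    have h4 : spl a b (dec2 a b (leR X)) z b := by
      refine ⟨Or.inr ⟨h3, le_rfl⟩, ?_⟩
      rintro ⟨h5, -, -⟩
      rcases h5 with h5 | h5
      · exact h2.2 (le_trans hba.le h5)
      · exact h2.2 h5.2
    rw [h] at h4
    exact h2.1 h4

/-- the antichain case -/
noncomputable def dec3 (a b : X) (R : X → X → Prop) : X → X → Prop :=
  if R b a then fun x y => R (Equiv.swap a b x) (Equiv.swap a b y)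
  else fun x y => R (if x = a then b else x) (if y = a then b else y)

lemma anti_inj (hX : ∀ x y : X, x ≤ y → x = y) {a b : X} (hab : a ≠ b) (R : X → X → Prop)
    (hR : Above (leR X) R) (hRab : R a b) :
    ∃ R', Above (leR X) R' ∧ ¬ R' a b ∧ dec3 a b R' = R := by
  obtain ⟨hr, ht, hP⟩ := hR
  by_cases h : R b a
  · have hequiv : ∀ x, R x (if x = a then b else x) ∧ R (if x = a then b else x) x := by
      intro x
      by_cases hx : x = a
      · rw [if_pos hx, hx]; exact ⟨hRab, h⟩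
      · rw [if_neg hx]; exact ⟨hr x, hr x⟩
    have hga : ∀ x, (if x = a then b else x) ≠ a := by
      intro x
      by_cases hx : x = a
      · rw [if_pos hx]; exact hab.symm
      · rw [if_neg hx]; exact hx
    refine ⟨fun x y => (x = a ∧ y = a) ∨ (x ≠ a ∧ y ≠ a ∧ R x y), ⟨?_, ?_, ?_⟩, ?_, ?_⟩
    · intro x
      by_cases hx : x = a
      · exact Or.inl ⟨hx, hx⟩
      · exact Or.inr ⟨hx, hx, hr x⟩
    · rintro x y z (h1 | h1) (h2 | h2)
      · exact Or.inl ⟨h1.1, h2.2⟩
      · exact absurd h1.2 h2.1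
      · exact absurd h2.1 h1.2.1
      · exact Or.inr ⟨h1.1, h2.2.1, ht _ _ _ h1.2.2 h2.2.2⟩
    · intro x y hxy
      have := hX x y hxy
      subst this
      by_cases hx : x = a
      · exact Or.inl ⟨hx, hx⟩
      · exact Or.inr ⟨hx, hx, hr x⟩
    · rintro (h1 | h1)
      · exact hab h1.2.symm
      · exact h1.1 rfl
    · unfold dec3
      rw [if_neg]
      · funext x y
        apply propext
        constructor
        · rintro (h1 | h1)
          · exact absurd h1.1 (hga x)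
          · exact ht _ _ _ (hequiv x).1 (ht _ _ _ h1.2.2 (hequiv y).2)
        · intro h1
          exact Or.inr ⟨hga x, hga y, ht _ _ _ (hequiv x).2 (ht _ _ _ h1 (hequiv y).1)⟩
      · rintro (h1 | h1)
        · exact hab h1.1.symm
        · exact h1.2.1 rfl
  · refine ⟨fun x y => R (Equiv.swap a b x) (Equiv.swap a b y), ⟨?_, ?_, ?_⟩, ?_, ?_⟩
    · intro x; exact hr _
    · intro x y z; exact ht _ _ _
    · intro x y hxy
      have := hX x y hxy
      subst this
      exact hr _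
    · change ¬ R (Equiv.swap a b a) (Equiv.swap a b b)
      rw [Equiv.swap_apply_left, Equiv.swap_apply_right]
      exact h
    · unfold dec3
      rw [if_pos]
      · funext x y
        simp
      · change R (Equiv.swap a b b) (Equiv.swap a b a)
        rw [Equiv.swap_apply_left, Equiv.swap_apply_right]
        exact hRab

lemma anti_half [Finite X] (hX : ∀ x y : X, x ≤ y → x = y) {a b : X} (hab : a ≠ b) :
    2 * {R : X → X → Prop | Above (leR X) R ∧ R a b}.ncard ≤
      {R : X → X → Prop | Above (leR X) R}.ncard :=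
  half_of_dec (leR X) _ (dec3 a b) (anti_inj hX hab)

lemma anti_strict [Finite X] (hX : ∀ x y : X, x ≤ y → x = y) {a b z : X} (hab : a ≠ b)
    (hza : z ≠ a) (hzb : z ≠ b) :
    2 * {R : X → X → Prop | Above (leR X) R ∧ R a b}.ncard <
      {R : X → X → Prop | Above (leR X) R}.ncard := by
  have hga : ∀ x, (if x = a then b else x) ≠ a := by
    intro x
    by_cases hx : x = a
    · rw [if_pos hx]; exact hab.symm
    · rw [if_neg hx]; exact hx
  apply half_of_dec_strict (leR X) _ (dec3 a b) (anti_inj hX hab)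
    (fun x y => x = y ∨ (x = a ∧ y = z)) (fun x y => x = y)
  · refine ⟨fun x => Or.inl rfl, ?_, fun x y h => Or.inl (hX x y h)⟩
    rintro x y t (h1 | h1) (h2 | h2)
    · exact Or.inl (h1.trans h2)
    · exact Or.inr ⟨h1.trans h2.1, h2.2⟩
    · exact Or.inr ⟨h1.1, h2.symm.trans h1.2⟩
    · exact Or.inr ⟨h1.1, h2.2⟩
  · rintro (h | h)
    · exact hab h
    · exact hzb h.2.symm
  · exact ⟨fun x => rfl, fun x y z => Eq.trans, hX⟩
  · exact hab
  · intro h
    have h' := congrFun (congrFun h a) z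
    have h2 : a = z ∨ (a = a ∧ z = z) := Or.inr ⟨rfl, rfl⟩
    rw [← h'] at h2
    exact hza h2.symm
  · unfold dec3
    rw [if_neg (fun h => hab h.symm), if_neg]
    · funext x y
      apply propext
      constructor
      · intro h; exact Or.inl h
      · rintro (h | h)
        · exact h
        · exact absurd h.1 (hga x)
    · rintro (h | h)
      · exact hab h.symm
      · exact hab h.1.symm

theorem exists_pair [Finite X] [Nontrivial X] :
    ∃ a b : X, ¬ a ≤ b ∧ (∀ y, b < y → ¬ y < a) ∧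
      2 * {R : X → X → Prop | Above (leR X) R ∧ R a b}.ncard ≤
      {R : X → X → Prop | Above (leR X) R}.ncard := by
  by_cases hX : ∀ x y : X, x ≤ y → x = y
  · obtain ⟨a, b, hab⟩ := exists_pair_ne X
    refine ⟨a, b, fun h => hab (hX _ _ h), ?_, anti_half hX hab⟩
    intro y h _
    exact h.ne (hX _ _ h.le)
  · push Not at hX
    obtain ⟨b, y, hby, hne⟩ := hX
    obtain ⟨a, ham⟩ := (Set.toFinite {x : X | b < x}).exists_minimal ⟨y, lt_of_le_of_ne hby hne⟩
    have hba : b < a := ham.1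
    exact ⟨a, b, not_le_of_gt hba, fun y hy hya => absurd (ham.2 hy hya.le) (not_le_of_gt hya),
      pair_half hba.le (not_le_of_gt hba)⟩

theorem exists_pair_strict [Finite X]
    (hinc : ∃ x y z : X, ¬ x ≤ y ∧ ¬ y ≤ x ∧ z ≠ x ∧ z ≠ y) :
    ∃ a b : X, ¬ a ≤ b ∧ (∀ y, b < y → ¬ y < a) ∧
      2 * {R : X → X → Prop | Above (leR X) R ∧ R a b}.ncard <
      {R : X → X → Prop | Above (leR X) R}.ncard := by
  obtain ⟨x0, x1, x2, h01, h10, h20, h21⟩ := hinc
  by_cases hX : ∀ x y : X, x ≤ y → x = y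
  · have hab : x0 ≠ x1 := fun h => h01 h.le
    refine ⟨x0, x1, h01, ?_, anti_strict hX hab h20 h21⟩
    intro y h _
    exact h.ne (hX _ _ h.le)
  · push Not at hX
    obtain ⟨u, v, huv, hne⟩ := hX
    have huv' : u < v := lt_of_le_of_ne huv hne
    have h : ∃ x y : X, (¬ x ≤ y ∧ ¬ y ≤ x) ∧ ∃ z, z < x ∨ x < z := by
      by_cases h0 : ∃ z, z < x0 ∨ x0 < z
      · exact ⟨x0, x1, ⟨h01, h10⟩, h0⟩
      · push Not at h0
        refine ⟨u, x0, ⟨?_, ?_⟩, v, Or.inr huv'⟩
        · intro h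
          rcases eq_or_lt_of_le h with h' | h'
          · subst h'; exact (h0 v).2 huv'
          · exact (h0 u).1 h'
        · intro h
          rcases eq_or_lt_of_le h with h' | h'
          · subst h'; exact (h0 v).2 huv'
          · exact (h0 u).2 h'
    obtain ⟨x, y, hxy, z, hz | hz⟩ := h
    · obtain ⟨b, hbm⟩ := (Set.toFinite {t : X | t < x}).exists_maximal ⟨z, hz⟩
      have hba : b < x := hbm.1
      refine ⟨x, b, not_le_of_gt hba, fun y hy hya => absurd (hbm.2 hya hy.le) (not_le_of_gt hy),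
        pair_strict hba (z := y) (Or.inl ⟨hxy.2, hxy.1⟩)⟩
    · obtain ⟨a, ham⟩ := (Set.toFinite {t : X | x < t}).exists_minimal ⟨z, hz⟩
      have hba : x < a := ham.1
      refine ⟨a, x, not_le_of_gt hba, fun y hy hya => absurd (ham.2 hy hya.le) (not_le_of_gt hya),
        pair_strict hba (z := y) (Or.inr ⟨hxy.2, hxy.1⟩)⟩

end Pool.Agent.Helper566.QO
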