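import Pool.Agent.Helper566_Q.Assemble

set_option autoImplicit false

namespace Pool.Agent.Helper566.QO

open Classical

universe u

section

variable {E : Type*} [DistribLattice E] [BoundedOrder E] [Finite E]

lemma exists_irr {x y : E} (h : ¬ x ≤ y) : ∃ p : Irr E, (p : E) ≤ x ∧ ¬ (p : E) ≤ y := by
  by_contra hn
  push Not at hn
  exact h (le_of_irr hn)

lemma nontrivial_irr (h : ∃ d : E, d ≠ ⊥ ∧ d ≠ ⊤) : Nontrivial (Irr E) := by
  obtain ⟨d, hd0, hd1⟩ := h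
  obtain ⟨x, hx, -⟩ := exists_irr (x := d) (y := ⊥) (fun h => hd0 (le_bot_iff.1 h))
  obtain ⟨y, -, hy⟩ := exists_irr (x := ⊤) (y := d) (fun h => hd1 (top_le_iff.1 h))
  exact ⟨⟨x, y, by rintro rfl; exact hy hx⟩⟩

lemma hinc_of {x y : E} (hxy : ¬ x ≤ y) (hyx : ¬ y ≤ x) (h : x ⊔ y ≠ ⊤ ∨ x ⊓ y ≠ ⊥) :
    ∃ a b c : Irr E, ¬ a ≤ b ∧ ¬ b ≤ a ∧ c ≠ a ∧ c ≠ b := by
  obtain ⟨a, hax, hay⟩ := exists_irr hxy
  obtain ⟨b, hby, hbx⟩ := exists_irr hyx
  have h1 : ¬ a ≤ b := fun h => hay (le_trans (show (a : E) ≤ b from h) hby)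
  have h2 : ¬ b ≤ a := fun h => hbx (le_trans (show (b : E) ≤ a from h) hax)
  rcases h with h | h
  · obtain ⟨c, -, hc⟩ := exists_irr (x := ⊤) (y := x ⊔ y) (fun h' => h (top_le_iff.1 h'))
    refine ⟨a, b, c, h1, h2, ?_, ?_⟩
    · rintro rfl; exact hc (le_trans hax le_sup_left)
    · rintro rfl; exact hc (le_trans hby le_sup_right)
  · obtain ⟨c, hc, -⟩ := exists_irr (x := x ⊓ y) (y := ⊥) (fun h' => h (le_bot_iff.1 h'))
    refine ⟨a, b, c, h1, h2, ?_, ?_⟩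
    · rintro rfl; exact hay (le_trans hc inf_le_right)
    · rintro rfl; exact hbx (le_trans hc inf_le_left)

end

theorem final {D : Type u} [DistribLattice D] [Finite D] (K : Set D)
    (hK : ∀ k ∈ K, IsBot k ∨ IsTop k) (hne : ∃ d, d ∉ K)
    {α : Type*} [DecidableEq α] (A : Finset (Finset α)) (hA : ∀ X ∈ A, ∀ Y ∈ A, X ∪ Y ∈ A)
    (h : Nonempty ({X // X ∈ A} ≃o SubK K) ∨ Nonempty ({X // X ∈ A} ≃o (SubK K)ᵒᵈ)) :
    (∃ i, A.card ≤ 2 * (A.filter fun X => i ∈ X).card) ∧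
      ((∃ S : Set D, K ⊆ S ∧ ¬ (SupClosed S ∧ InfClosed S)) →
        ∃ i, A.card < 2 * (A.filter fun X => i ∈ X).card) := by
  obtain ⟨E, i1, i2, i3, j, hj, hr, hKj⟩ := exists_E D K hK
  have hE : ∃ d : E, d ≠ ⊥ ∧ d ≠ ⊤ := by
    obtain ⟨d, hd⟩ := hne
    exact ⟨j d, fun h => hd ((hKj d).2 (Or.inl h)), fun h => hd ((hKj d).2 (Or.inr h))⟩
  have hnt := nontrivial_irr hE
  have hinc : (∃ S : Set D, K ⊆ S ∧ ¬ (SupClosed S ∧ InfClosed S)) →
      ∃ a b c : Irr E, ¬ a ≤ b ∧ ¬ b ≤ a ∧ c ≠ a ∧ c ≠ b := by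
    rintro ⟨S, hKS, hS⟩
    have h1 : ∃ a ∈ S, ∃ b ∈ S, a ⊔ b ∉ S ∨ a ⊓ b ∉ S := by
      by_contra hn
      push Not at hn
      exact hS ⟨fun a ha b hb => (hn a ha b hb).1, fun a ha b hb => (hn a ha b hb).2⟩
    obtain ⟨a, ha, b, hb, hab⟩ := h1
    have hle : ∀ c d : D, j c ≤ j d → c ≤ d := by
      intro c d h
      have h2 : j (c ⊔ d) = j d := by rw [map_sup]; exact sup_eq_right.2 h
      exact sup_eq_right.1 (hj h2)
    apply hinc_of (x := j a) (y := j b)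
    · intro h
      have h' := hle a b h
      rcases hab with h2 | h2
      · rw [sup_eq_right.2 h'] at h2; exact h2 hb
      · rw [inf_eq_left.2 h'] at h2; exact h2 ha
    · intro h
      have h' := hle b a h
      rcases hab with h2 | h2
      · rw [sup_eq_left.2 h'] at h2; exact h2 ha
      · rw [inf_eq_right.2 h'] at h2; exact h2 hb
    · rcases hab with h2 | h2
      · left
        intro h3
        rw [← map_sup] at h3
        exact h2 (hKS ((hKj _).2 (Or.inr h3)))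
      · right
        intro h3
        rw [← map_inf] at h3
        exact h2 (hKS ((hKj _).2 (Or.inl h3)))
  let t := transfer j hj hr K hKj
  rcases h with ⟨⟨e⟩⟩ | ⟨⟨e⟩⟩
  · let e' : {X // X ∈ A} ≃o (QOrd (Irr E))ᵒᵈ :=
      e.trans (t.trans ((OrderIso.dualDual _).trans (iso (D := E)).dual))
    constructor
    · obtain ⟨m, m', hm, hcov, hc⟩ := qord_down (X := Irr E)
      obtain ⟨i, h1, h2, h3⟩ := uc_aux A hA e' m m' hm hcov
      exact ⟨i, by omega⟩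
    · intro hst
      obtain ⟨m, m', hm, hcov, hc⟩ := qord_down_strict (X := Irr E) (hinc hst)
      obtain ⟨i, h1, h2, h3⟩ := uc_aux A hA e' m m' hm hcov
      exact ⟨i, by omega⟩
  · let e' : {X // X ∈ A} ≃o QOrd (Irr E) := e.trans (t.dual.trans (iso (D := E)))
    constructor
    · obtain ⟨m, m', hm, hcov, hc⟩ := qord_up (X := Irr E)
      obtain ⟨i, h1, h2, h3⟩ := uc_aux A hA e' m m' hm hcov
      exact ⟨i, by omega⟩
    · intro hst
      obtain ⟨m, m', hm, hcov, hc⟩ := qord_up_strict (X := Irr E) (hinc hst)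
      obtain ⟨i, h1, h2, h3⟩ := uc_aux A hA e' m m' hm hcov
      exact ⟨i, by omega⟩

end Pool.Agent.Helper566.QO
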