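import Pool.Agent.Helper566_Q.Birkhoff

set_option autoImplicit false

namespace Pool.Agent.Helper566.QO

open Classical

/-- The sublattices (the empty one included) that contain `K`. -/
abbrev SubK {D : Type*} [Lattice D] (K : Set D) := {S : Sublattice D // ∀ k ∈ K, k ∈ S}

section transfer

variable {D E : Type*} [DistribLattice D] [DistribLattice E] [BoundedOrder E]

/-- Sublattices of `D` containing `K` are the 0-1-sublattices of `E`. -/
noncomputable def transfer (j : LatticeHom D E) (hj : Function.Injective j)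
    (hr : ∀ e, e = ⊥ ∨ e = ⊤ ∨ ∃ d, j d = e) (K : Set D)
    (hK : ∀ d, d ∈ K ↔ (j d = ⊥ ∨ j d = ⊤)) : SubK K ≃o Sub01 E where
  toFun S := ⟨⟨{e | e = ⊥ ∨ e = ⊤ ∨ ∃ d ∈ S.1, j d = e}, by
      rintro a (rfl | rfl | ⟨d, hd, rfl⟩) b (rfl | rfl | ⟨d', hd', rfl⟩)
      · left; simp
      · right; left; simp
      · right; right; exact ⟨d', hd', by simp⟩
      · right; left; simp
      · right; left; simp
      · right; left; simp
      · right; right; exact ⟨d, hd, by simp⟩
      · right; left; simp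
      · right; right; exact ⟨d ⊔ d', S.1.supClosed' hd hd', by simp⟩, by
      rintro a (rfl | rfl | ⟨d, hd, rfl⟩) b (rfl | rfl | ⟨d', hd', rfl⟩)
      · left; simp
      · left; simp
      · left; simp
      · left; simp
      · right; left; simp
      · right; right; exact ⟨d', hd', by simp⟩
      · left; simp
      · right; right; exact ⟨d, hd, by simp⟩
      · right; right; exact ⟨d ⊓ d', S.1.infClosed' hd hd', by simp⟩⟩,
      Or.inl rfl, Or.inr (Or.inl rfl)⟩
  invFun T := ⟨T.1.comap j, by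
    intro k hk
    rw [Sublattice.mem_comap]
    rcases (hK k).1 hk with h | h
    · rw [h]; exact T.2.1
    · rw [h]; exact T.2.2⟩
  left_inv S := by
    apply Subtype.ext
    apply SetLike.ext
    intro d
    rw [Sublattice.mem_comap]
    constructor
    · rintro (h | h | ⟨d', hd', h⟩)
      · exact S.2 d ((hK d).2 (Or.inl h))
      · exact S.2 d ((hK d).2 (Or.inr h))
      · rw [← hj h]; exact hd'
    · intro h; exact Or.inr (Or.inr ⟨d, h, rfl⟩)
  right_inv T := by
    apply Subtype.ext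
    apply SetLike.ext
    intro e
    constructor
    · rintro (h | h | ⟨d, hd, h⟩)
      · rw [h]; exact T.2.1
      · rw [h]; exact T.2.2
      · rw [← h]; exact hd
    · intro h
      rcases hr e with he | he | ⟨d, he⟩
      · exact Or.inl he
      · exact Or.inr (Or.inl he)
      · refine Or.inr (Or.inr ⟨d, ?_, he⟩)
        rw [Sublattice.mem_comap, he]
        exact h
  map_rel_iff' := by
    intro S T
    constructor
    · intro h d hd
      have : j d ∈ ({e | e = ⊥ ∨ e = ⊤ ∨ ∃ d ∈ T.1, j d = e} : Set E) :=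
        h (show j d ∈ ({e | e = ⊥ ∨ e = ⊤ ∨ ∃ d ∈ S.1, j d = e} : Set E) from
          Or.inr (Or.inr ⟨d, hd, rfl⟩))
      rcases this with h' | h' | ⟨d', hd', h'⟩
      · exact T.2 d ((hK d).2 (Or.inl h'))
      · exact T.2 d ((hK d).2 (Or.inr h'))
      · rw [← hj h']; exact hd'
    · rintro h e (he | he | ⟨d, hd, he⟩)
      · exact Or.inl he
      · exact Or.inr (Or.inl he)
      · exact Or.inr (Or.inr ⟨d, h hd, he⟩)

lemma transfer_mem (j : LatticeHom D E) (hj : Function.Injective j)
    (hr : ∀ e, e = ⊥ ∨ e = ⊤ ∨ ∃ d, j d = e) (K : Set D)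
    (hK : ∀ d, d ∈ K ↔ (j d = ⊥ ∨ j d = ⊤)) (S : SubK K) (d : D) :
    j d ∈ (transfer j hj hr K hK S).1 ↔ d ∈ S.1 := by
  constructor
  · rintro (h | h | ⟨d', hd', h⟩)
    · exact S.2 d ((hK d).2 (Or.inl h))
    · exact S.2 d ((hK d).2 (Or.inr h))
    · rw [← hj h]; exact hd'
  · intro h; exact Or.inr (Or.inr ⟨d, h, rfl⟩)

theorem half_transfer [Finite D] [Finite E] (j : LatticeHom D E) (hj : Function.Injective j)
    (hr : ∀ e, e = ⊥ ∨ e = ⊤ ∨ ∃ d, j d = e) (K : Set D)
    (hK : ∀ d, d ∈ K ↔ (j d = ⊥ ∨ j d = ⊤)) (hne : ∃ d, d ∉ K) :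
    ∃ d, d ∉ K ∧ 2 * Nat.card {S : SubK K // d ∈ S.1} ≤ Nat.card (SubK K) := by
  obtain ⟨d, hd⟩ := hne
  obtain ⟨e, he0, he1, he⟩ := half01 (D := E) ⟨j d, fun h => hd ((hK d).2 (Or.inl h)),
    fun h => hd ((hK d).2 (Or.inr h))⟩
  rcases hr e with h | h | ⟨c, hc⟩
  · exact absurd h he0
  · exact absurd h he1
  · refine ⟨c, ?_, ?_⟩
    · intro h
      rcases (hK c).1 h with h' | h'
      · exact he0 (hc ▸ h')
      · exact he1 (hc ▸ h')
    · have e1 : Nat.card (SubK K) = Nat.card (Sub01 E) :=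
        Nat.card_congr (transfer j hj hr K hK).toEquiv
      have e2 : Nat.card {S : SubK K // c ∈ S.1} = Nat.card {S : Sub01 E // e ∈ S.1} := by
        refine Nat.card_congr (Equiv.subtypeEquiv (transfer j hj hr K hK).toEquiv ?_)
        intro S
        rw [← hc]
        exact (transfer_mem j hj hr K hK S c).symm
      rw [e1, e2]
      exact he

end transfer

end Pool.Agent.Helper566.QO
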